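import Pool.Agent.W2helper41.CH.Seq

/-!
The unconditional law: following down to a fixed height.
-/

set_option autoImplicit false

namespace Pool.Agent.W2helper41.CH

open Finset Filter Topology
open Pool.Agent.H934R2.Ch (T f T_even T_odd T_iter_pos)
open Pool.Agent.H499R2.ND (Dn cnt Tn Bdd cnt_mono cnt_or zd_iff zd_bdd hit full_zd true_density mu_pos' AK exists_nK th)
open Pool.Agent.H319R2.Lln (mu)

/-- following until the orbit of `n` is at most `y` -/
def FolTo (y n : ℕ) (x : ℝ) : Prop := ∃ K, T^[K] n ≤ y ∧ ∀ k ≤ K, Near (T^[k] n) (f^[k] x)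

theorem unc_upper {x : ℕ → ℝ} {a b : ℝ} (h : Conv x a b) (y : ℕ) : ∀ ε : ℝ, 0 < ε →
    ∀ᶠ N : ℕ in atTop, cnt (fun n => FolTo y n (x n)) N ≤ (1 - hh a b + ε) * N := by
  intro ε hε
  have h1 := law_upper (P := fun _ => True) (Q := fun n => FolTo y n (x n)) (fun _ => Iff.rfl) true_density a b
    (fun J => by
      obtain ⟨N, h1⟩ := esc_big h J
      refine ⟨max N (2 ^ (J + 1 + 8) * y + 1), fun n hn h5 => ?_⟩
      have h2 := h1 n ((le_max_left _ _).trans hn) h5
      have h3 : 2 ^ (J + 1 + 8) * y + 1 ≤ n := (le_max_right _ _).trans hn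
      rintro ⟨K, hK, hK2⟩
      rcases Nat.lt_or_ge K (J + 1 + 8) with h4 | h4
      · have h6 := T_iter_ge K n
        have h7 : 2 ^ K * T^[K] n ≤ 2 ^ (J + 1 + 8) * y :=
          Nat.mul_le_mul (Nat.pow_le_pow_right (by norm_num) h4.le) hK
        omega
      · have h6 := dev_of_near (hK2 (J + 1 + 8) h4)
        linarith) ε hε
  filter_upwards [h1] with N h2
  have e : cnt (fun n => FolTo y n (x n)) N = cnt (fun n => True ∧ FolTo y n (x n)) N := by
    simp only [true_and]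
  rw [e]
  have e2 : (1 : ℝ) * (1 - hh a b) = 1 - hh a b := one_mul _
  rw [e2] at h2
  exact h2

theorem unc_lower {x : ℕ → ℝ} {a b : ℝ} (h : Conv x a b) {ε : ℝ} (hε : 0 < ε) :
    ∃ y : ℕ, ∀ᶠ N : ℕ in atTop, (1 - hh a b - ε) * N ≤ cnt (fun n => FolTo y n (x n)) N := by
  classical
  have hmu := mu_pos'
  obtain ⟨lam, η, J, hl1, hη0, hη2, hgood⟩ := good_words (P := fun _ => True) (fun _ => Iff.rfl) true_density a b
    (ε := ε / 8) (by positivity)
  obtain ⟨N0, hN0⟩ := good_states h J hη0 hl1 hη2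
  obtain ⟨L, hLs⟩ := small_L (J + 1) (ε := ε / 8) (by positivity)
  obtain ⟨n1, hn1⟩ := exists_nK L lam
  obtain ⟨y, hy⟩ := hit (κ := 2 / Real.log (4 / 3) + 1) (by linarith) (ε := ε / 8) (by positivity)
  obtain ⟨C, hC⟩ : ∃ C : ℝ, C = Real.exp (2 * ((J + 1) * (1 + 1 / mu))) := ⟨_, rfl⟩
  refine ⟨y, ?_⟩
  filter_upwards [hgood L, hy,
    zd_iff.1 (full_zd (ε := mu / 2) (by positivity) (fun a => a ≤ y)) (ε / 8) (by positivity),
    zd_iff.1 (zd_bdd (N0 + 2 ^ (J + 1) * n1)) (ε / 8) (by positivity),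
    zd_iff.1 (zd_bdd C) (ε / 8) (by positivity), eventually_gt_atTop 0] with N g1 g2 g3 g4 g5 g6
  have g7 := early_pre (J + 1) L N
  have hN : (0 : ℝ) < N := by exact_mod_cast g6
  have g8 : 4 ^ (J + 1) * (4 * th ^ L / (1 - th)) * N ≤ ε / 8 * N := mul_le_mul_of_nonneg_right hLs.le hN.le
  have key : cnt (fun n => (Gd η (Zf a b J n) ∧ AK L lam (T^[J + 1] n)) ∧ True) N ≤
      cnt (fun n => FolTo y n (x n)) N
      + (cnt (fun n => ∀ j : ℕ, (j : ℝ) ≤ (2 / Real.log (4 / 3) + 1) * Real.log n → y < Tn^[j] n) N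
      + (cnt (fun n : ℕ => (∃ k, Tn^[k] n ≤ y) ∧ ¬ ∃ t : ℕ, Tn^[t] n ≤ y ∧ (∀ j < t, ¬ Tn^[j] n ≤ y) ∧
        ∀ j ≤ t, |Real.log ((Tn^[j] n : ℕ) : ℝ) - Real.log n + mu * j| ≤ mu / 2 * Real.log n) N
      + (cnt (fun n => EarlyP L (T^[J + 1] n)) N
      + (cnt (fun n : ℕ => (n : ℝ) ≤ N0 + 2 ^ (J + 1) * n1) N + cnt (fun n : ℕ => (n : ℝ) ≤ C) N)))) := by
    refine (cnt_or N (Q := fun n => FolTo y n (x n)) (R := fun n =>
      (∀ j : ℕ, (j : ℝ) ≤ (2 / Real.log (4 / 3) + 1) * Real.log n → y < Tn^[j] n) ∨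
      (((∃ k, Tn^[k] n ≤ y) ∧ ¬ ∃ t : ℕ, Tn^[t] n ≤ y ∧ (∀ j < t, ¬ Tn^[j] n ≤ y) ∧
        ∀ j ≤ t, |Real.log ((Tn^[j] n : ℕ) : ℝ) - Real.log n + mu * j| ≤ mu / 2 * Real.log n) ∨
      (EarlyP L (T^[J + 1] n) ∨ ((n : ℝ) ≤ N0 + 2 ^ (J + 1) * n1 ∨ (n : ℝ) ≤ C))))
      fun n hn hnN hp => ?_).trans
      (add_le_add le_rfl ((cnt_or N fun n _ _ h => h).trans (add_le_add le_rfl
        ((cnt_or N fun n _ _ h => h).trans (add_le_add le_rfl ((cnt_or N fun n _ _ h => h).trans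
          (add_le_add le_rfl (cnt_or N fun n _ _ h => h))))))))
    by_contra hcon
    push Not at hcon
    obtain ⟨hc1, ⟨j, _, hj⟩, hc2, hc3, hc4, hc5⟩ := hcon
    obtain ⟨t, ht, _, hprof⟩ := hc2 ⟨j, hj⟩
    obtain ⟨⟨hg, hA⟩, -⟩ := hp
    have hc6 : N0 + 2 ^ (J + 1) * n1 < n := by exact_mod_cast hc4
    have hm : 1 ≤ T^[J + 1] n := T_iter_pos hn (J + 1)
    have hT1 := T_iter_ge (J + 1) n
    have hmn : n1 < T^[J + 1] n := by
      have h2 : 2 ^ (J + 1) * n1 < 2 ^ (J + 1) * T^[J + 1] n := by omega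
      exact Nat.lt_of_mul_lt_mul_left h2
    have hnR : (0 : ℝ) < n := by exact_mod_cast hn
    apply hc1
    refine ⟨t, ht, ?_⟩
    rcases Nat.lt_or_ge t (J + 1) with h1 | h1
    · have h2 := (hN0 n (by omega) hg 0 (fun k hk => by
        have : k = 0 := by omega
        subst this
        simp only [Function.iterate_zero, id]
        have : (0 : ℝ) ≤ ((T^[J + 1] n : ℕ) : ℝ) := Nat.cast_nonneg _
        nlinarith)).1
      exact fun k hk => h2 k (by omega)
    · obtain ⟨i, rfl⟩ : ∃ i, t = J + 1 + i := ⟨t - (J + 1), by omega⟩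
      refine (hN0 n (by omega) hg i (fun k hk => ?_)).1
      by_contra hlt
      push Not at hlt
      rcases exceed (P := fun _ => True) hl1 hn1 hm hmn hA hlt trivial with h2 | ⟨-, h2, h3⟩
      · exact hc3 ⟨k, h2⟩
      · -- late: contradiction with the profile
        have h4 := (abs_le.1 (hprof (k + (J + 1)) (by omega))).2
        have e1 : Tn^[k + (J + 1)] n = T^[k] (T^[J + 1] n) := by
          rw [← T_eq, Function.iterate_add_apply]
        rw [e1] at h4
        have hmR : (0 : ℝ) < ((T^[J + 1] n : ℕ) : ℝ) := by exact_mod_cast hm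
        have h5 : Real.log ((T^[J + 1] n : ℕ) : ℝ) ≤ Real.log ((T^[k] (T^[J + 1] n) : ℕ) : ℝ) :=
          Real.log_le_log hmR (by exact_mod_cast h3)
        have h6 : Real.log n ≤ (J + 1 : ℝ) * Real.log 2 + Real.log ((T^[J + 1] n : ℕ) : ℝ) := by
          have : (n : ℝ) ≤ 2 ^ (J + 1) * ((T^[J + 1] n : ℕ) : ℝ) := by exact_mod_cast hT1
          have h7 := Real.log_le_log hnR this
          rw [Real.log_mul (by positivity) hmR.ne', Real.log_pow] at h7
          push_cast at h7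
          exact h7
        have h7 : Real.log ((T^[J + 1] n : ℕ) : ℝ) < k * Real.log 2 := by
          rw [← Real.log_pow]
          exact Real.log_lt_log hmR (by exact_mod_cast h2)
        have h8 : Real.log 2 < 1 := by
          have := Real.log_two_lt_d9; linarith
        have h8' : 0 < Real.log 2 := Real.log_pos (by norm_num)
        have hk0 : (0 : ℝ) ≤ k := Nat.cast_nonneg k
        have hJ0 : (0 : ℝ) ≤ J := Nat.cast_nonneg J
        have h9 : Real.log n ≤ (J + 1) + k := by nlinarith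
        push_cast at h4
        have h10 : mu * (k + (J + 1)) ≤ mu / 2 * Real.log n + (J + 1) := by nlinarith
        have h11 : mu * Real.log n ≤ mu / 2 * Real.log n + (J + 1) := by
          have := mul_le_mul_of_nonneg_left h9 hmu.le
          linarith
        have h12 : Real.log n ≤ 2 * ((J + 1) * (1 + 1 / mu)) := by
          have h13 : mu * Real.log n ≤ 2 * (J + 1) := by linarith
          have h14 : Real.log n ≤ 2 * (J + 1) / mu := by
            rw [le_div_iff₀ hmu]; linarith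
          have h15 : 2 * ((J + 1) * (1 + 1 / mu)) = 2 * (J + 1) / mu + 2 * (J + 1) := by
            field_simp; ring
          rw [h15]; linarith
        have h13 : (n : ℝ) ≤ C := by
          rw [hC, ← Real.exp_log hnR]
          exact Real.exp_le_exp.2 h12
        linarith
  have g9 : cnt (fun n : ℕ => (n : ℝ) ≤ N0 + 2 ^ (J + 1) * n1) N ≤ ε / 8 * N := by
    exact_mod_cast g4
  have e : (1 - hh a b - ε) * N = (1 * (1 - hh a b) - ε / 8) * N - 7 * (ε / 8 * N) := by ring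
  rw [e]
  have : 0 < ε / 8 * N := by positivity
  linarith

theorem folTo_mono {y y' : ℕ} (h : y ≤ y') {n : ℕ} {x : ℝ} (h1 : FolTo y n x) : FolTo y' n x := by
  obtain ⟨K, h2, h3⟩ := h1
  exact ⟨K, h2.trans h, h3⟩

/-- **The unconditional law.** -/
theorem unc_law {x : ℕ → ℝ} {a b : ℝ} (h : Conv x a b) {ε : ℝ} (hε : 0 < ε) :
    ∃ y0 : ℕ, ∀ y, y0 ≤ y → ∀ᶠ N : ℕ in atTop, (1 - hh a b - ε) * N ≤ cnt (fun n => FolTo y n (x n)) N ∧
      cnt (fun n => FolTo y n (x n)) N ≤ (1 - hh a b + ε) * N := by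
  obtain ⟨y0, h1⟩ := unc_lower h hε
  refine ⟨y0, fun y hy => ?_⟩
  filter_upwards [h1, unc_upper h y ε hε] with N h2 h3
  exact ⟨h2.trans (cnt_mono N fun n _ _ h => folTo_mono hy h), h3⟩

end Pool.Agent.W2helper41.CH
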