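import Pool.Agent.W2helper41.CH.Reg
import Pool.Agent.H499R2.NDExc2

/-!
The exact law, in abstract form.
-/

set_option autoImplicit false

namespace Pool.Agent.W2helper41.CH

open Finset Filter Topology
open Pool.Agent.H934R2.Ch (T f T_even T_odd T_iter_pos)
open Pool.Agent.H499R2.ND (Dn cnt Tn Bdd rK cnt_eq cnt_mono cnt_or cnt_le cntn_nonneg zd_iff zd_bdd AK AK_mod dn_res
  early late th th_pos th_lt rK_ge exists_nK iter_real er_le od_le Bdd_inv)
open Pool.Agent.Helper894.Collatz (od er)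

theorem T_eq : T = Tn := rfl

/-! ### preimages -/

theorem cnt_pre1 (Q : ℕ → Prop) (N : ℕ) : cnt (fun n => Q (T n)) N ≤ 2 * cnt Q (2 * N) := by
  classical
  rw [cnt_eq, cnt_eq]
  have hsub : (Icc 1 N).filter (fun n => Q (T n)) ⊆
      ((Icc 1 N).filter (fun n => n % 2 = 0 ∧ Q (T n))) ∪ ((Icc 1 N).filter (fun n => n % 2 = 1 ∧ Q (T n))) := by
    intro n hn
    rw [mem_filter] at hn
    rw [mem_union, mem_filter, mem_filter]
    rcases Nat.mod_two_eq_zero_or_one n with h | h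
    · exact Or.inl ⟨hn.1, h, hn.2⟩
    · exact Or.inr ⟨hn.1, h, hn.2⟩
  have h0 : ((Icc 1 N).filter (fun n => n % 2 = 0 ∧ Q (T n))).card ≤ ((Icc 1 (2 * N)).filter Q).card := by
    apply card_le_card_of_injOn T
    · intro n hn
      rw [mem_coe, mem_filter, mem_Icc] at hn ⊢
      obtain ⟨⟨h1, h2⟩, h3, h4⟩ := hn
      refine ⟨⟨?_, ?_⟩, h4⟩
      · unfold T; split_ifs <;> omega
      · unfold T; split_ifs <;> omega
    · intro u hu v hv huv
      rw [mem_coe, mem_filter, mem_Icc] at hu hv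
      unfold T at huv
      rw [if_pos hu.2.1, if_pos hv.2.1] at huv
      omega
  have h1 : ((Icc 1 N).filter (fun n => n % 2 = 1 ∧ Q (T n))).card ≤ ((Icc 1 (2 * N)).filter Q).card := by
    apply card_le_card_of_injOn T
    · intro n hn
      rw [mem_coe, mem_filter, mem_Icc] at hn ⊢
      obtain ⟨⟨h1, h2⟩, h3, h4⟩ := hn
      refine ⟨⟨?_, ?_⟩, h4⟩
      · unfold T; split_ifs <;> omega
      · unfold T; split_ifs <;> omega
    · intro u hu v hv huv
      rw [mem_coe, mem_filter, mem_Icc] at hu hv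
      unfold T at huv
      rw [if_neg (by omega), if_neg (by omega)] at huv
      omega
  have h2 := (card_le_card hsub).trans (card_union_le _ _)
  have h3 : ((Icc 1 N).filter (fun n => Q (T n))).card ≤ 2 * ((Icc 1 (2 * N)).filter Q).card := by omega
  exact_mod_cast h3

theorem cnt_pre (J : ℕ) (Q : ℕ → Prop) (N : ℕ) : cnt (fun n => Q (T^[J] n)) N ≤ 2 ^ J * cnt Q (2 ^ J * N) := by
  induction J generalizing N with
  | zero => simp
  | succ J ih =>
    have h1 := cnt_pre1 (fun n => Q (T^[J] n)) N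
    have h2 := ih (2 * N)
    have e : 2 ^ (J + 1) * N = 2 ^ J * (2 * N) := by ring
    rw [e, pow_succ]
    have h3 : cnt (fun n => Q (T^[J + 1] n)) N = cnt (fun n => Q (T^[J] (T n))) N := rfl
    rw [h3]
    linarith

theorem zd_pre (J : ℕ) {Q : ℕ → Prop} (hQ : Dn Q 0) : Dn (fun n => Q (T^[J] n)) 0 := by
  rw [zd_iff] at hQ ⊢
  intro ε hε
  have h1 : Tendsto (fun N : ℕ => 2 ^ J * N) atTop atTop :=
    tendsto_id.const_mul_atTop' (by positivity)
  filter_upwards [h1.eventually (hQ (ε / 4 ^ J) (by positivity))] with N h2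
  refine (cnt_pre J Q N).trans ?_
  have h3 := mul_le_mul_of_nonneg_left h2 (by positivity : (0 : ℝ) ≤ 2 ^ J)
  refine h3.trans (le_of_eq ?_)
  have e : (4 : ℝ) ^ J = 2 ^ J * 2 ^ J := by rw [← mul_pow]; norm_num
  push_cast
  rw [e]
  field_simp

/-! ### words -/

theorem dn_word {P : ℕ → Prop} {d : ℝ} (hP : ∀ n, P n ↔ P (Tn n)) (hd : Dn P d) {M : ℕ} {W : ℕ → Prop}
    [DecidablePred W] (hW : Per M W) :
    Dn (fun n => W n ∧ P n) ((((range (2 ^ M)).filter W).card : ℝ) / 2 ^ M * d) := by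
  have h := dn_res hP hd (q := 2 ^ M) (by positivity) (R := (range (2 ^ M)).filter W)
    (fun r hr => mem_range.1 (mem_filter.1 hr).1)
  have e : (fun n => n % 2 ^ M ∈ (range (2 ^ M)).filter W ∧ P n) = fun n => W n ∧ P n := by
    funext n
    rw [mem_filter, mem_range, hW.mod n]
    have : n % 2 ^ M < 2 ^ M := Nat.mod_lt _ (by positivity)
    simp [this]
  rw [e] at h
  have e2 : (((range (2 ^ M)).filter W).card : ℝ) / 2 ^ M * d
      = (((range (2 ^ M)).filter W).card : ℝ) * (d / ((2 ^ M : ℕ) : ℝ)) := by push_cast; ring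
  rw [e2]
  exact h

/-- the state at time `J + 1` from the initial states `a` (even) and `b` (odd) -/
noncomputable def Zf (a b : ℝ) (J n : ℕ) : ℝ := Zc (J + 1) n (if n % 2 = 0 then a else b)

theorem Zf_per (a b : ℝ) (J : ℕ) : Per (J + 1) (fun n => Zf a b J n) := by
  intro n m
  have h1 : (n + 2 ^ (J + 1) * m) % 2 = n % 2 := par_shift n J m
  have h2 := Zc_per' (J + 1) (if n % 2 = 0 then a else b) n m
  simp only [Zf, h1]
  exact h2

/-- mean escape up to time `J + 1` -/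
noncomputable def hJ (a b : ℝ) (J : ℕ) : ℝ := (avg eI J (E a) + avg eI J (O b)) / 2

/-- mean of the undecided states at time `J + 1` -/
noncomputable def bJ (η a b : ℝ) (J : ℕ) : ℝ := (avg (bI η) J (E a) + avg (bI η) J (O b)) / 2

/-- the good states -/
def Gd (η z : ℝ) : Prop := -η < z ∧ z ≤ 2

theorem sum_Zf (g : ℝ → ℝ) (a b : ℝ) (J : ℕ) :
    ∑ r ∈ range (2 ^ (J + 1)), g (Zf a b J r) = 2 ^ (J + 1) * ((avg g J (E a) + avg g J (O b)) / 2) :=
  sum_Zc2 g J a b

theorem ind_esc (z : ℝ) [Decidable (|z| ≤ 5)] : (if |z| ≤ 5 then (1 : ℝ) else 0) = 1 - eI z := by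
  unfold eI
  by_cases h : |z| ≤ 5
  · rw [if_pos h, if_neg (not_lt.2 h)]; ring
  · rw [if_neg h, if_pos (not_le.1 h)]; ring

theorem ind_good {η : ℝ} (h0 : 0 < η) (hη : η ≤ 1) (z : ℝ) [Decidable (Gd η z)] :
    (if Gd η z then (1 : ℝ) else 0) = 1 - eI z - bI η z := by
  unfold eI bI
  by_cases h5 : 5 < |z|
  · rw [if_pos h5]
    rcases lt_abs.1 h5 with h | h
    · rw [if_neg (by rintro ⟨_, h3⟩; linarith), if_neg (by rintro (⟨_, h3⟩ | ⟨_, h3⟩) <;> linarith)]; ring
    · rw [if_neg (by rintro ⟨h3, _⟩; linarith), if_neg (by rintro (⟨h3, _⟩ | ⟨h3, _⟩) <;> linarith)]; ring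
  · rw [if_neg h5]
    push Not at h5
    obtain ⟨h6, h7⟩ := abs_le.1 h5
    by_cases hg : Gd η z
    · rw [if_pos hg, if_neg (by rintro (⟨_, h3⟩ | ⟨h3, _⟩) <;> linarith [hg.1, hg.2])]; ring
    · rw [if_neg hg]
      rw [if_pos]
      · ring
      · by_cases h8 : -η < z
        · right
          refine ⟨?_, h7⟩
          by_contra h9
          push Not at h9
          exact hg ⟨h8, h9⟩
        · left
          push Not at h8
          exact ⟨h6, h8⟩

theorem card_esc (a b : ℝ) (J : ℕ) [DecidablePred fun r => |Zf a b J r| ≤ 5] :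
    (((range (2 ^ (J + 1))).filter (fun r => |Zf a b J r| ≤ 5)).card : ℝ) = 2 ^ (J + 1) * (1 - hJ a b J) := by
  have h2 : ∀ r ∈ range (2 ^ (J + 1)), (if |Zf a b J r| ≤ 5 then (1 : ℝ) else 0) = 1 - eI (Zf a b J r) :=
    fun r _ => ind_esc _
  rw [← sum_boole, sum_congr rfl h2, sum_sub_distrib, sum_Zf]
  simp only [sum_const, card_range, nsmul_eq_mul, mul_one]
  unfold hJ
  push_cast; ring

theorem card_good {η : ℝ} (h0 : 0 < η) (hη : η ≤ 1) (a b : ℝ) (J : ℕ)
    [DecidablePred fun r => Gd η (Zf a b J r)] :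
    (((range (2 ^ (J + 1))).filter (fun r => Gd η (Zf a b J r))).card : ℝ)
      = 2 ^ (J + 1) * (1 - hJ a b J - bJ η a b J) := by
  have h2 : ∀ r ∈ range (2 ^ (J + 1)), (if Gd η (Zf a b J r) then (1 : ℝ) else 0)
      = 1 - eI (Zf a b J r) - bI η (Zf a b J r) := fun r _ => ind_good h0 hη _
  rw [← sum_boole, sum_congr rfl h2, sum_sub_distrib, sum_sub_distrib, sum_Zf, sum_Zf]
  simp only [sum_const, card_range, nsmul_eq_mul, mul_one]
  unfold hJ bJ
  push_cast; ring

/-- the `AK` condition at time `J + 1` -/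
theorem AK_per (L : ℕ) (lam : ℝ) : Per L (AK L lam) := by
  intro n m
  apply propext
  rw [← AK_mod L lam (n + 2 ^ L * m), Nat.add_mul_mod_self_left, AK_mod]

theorem card_nAK {lam : ℝ} (hl : 0 < lam) (J L : ℕ) [DecidablePred fun r => ¬ AK L lam (T^[J] r)] :
    (((range (2 ^ (J + L))).filter (fun r => ¬ AK L lam (T^[J] r))).card : ℝ) ≤ 2 ^ (J + L) * (1 / lam) := by
  classical
  have h1 : (((range (2 ^ (J + L))).filter (fun r => ¬ AK L lam (T^[J] r))).card : ℝ)
      = ∑ r ∈ range (2 ^ (J + L)), (fun s => if ¬ AK L lam s then (1 : ℝ) else 0) (T^[J] r) := by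
    rw [← sum_boole]
    apply sum_congr rfl
    intro r _
    by_cases h : AK L lam (T^[J] r)
    · simp [h]
    · simp [h]
  have hper : Per L (fun s => if ¬ AK L lam s then (1 : ℝ) else 0) := by
    intro n m
    have := AK_per L lam n m
    simp only [this]
  rw [h1, sum_Ti hper J]
  have h2 : ∑ s ∈ range (2 ^ L), (if ¬ AK L lam s then (1 : ℝ) else 0)
      = (((range (2 ^ L)).filter (fun s => ¬ AK L lam s)).card : ℝ) := by rw [sum_boole]
  rw [h2]
  have h3 := card_filter_add_card_filter_not (s := range (2 ^ L)) (AK L lam)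
  rw [card_range] at h3
  have h4 : (((range (2 ^ L)).filter (AK L lam)).card : ℝ)
      + (((range (2 ^ L)).filter (fun r => ¬ AK L lam r)).card : ℝ) = 2 ^ L := by exact_mod_cast h3
  have h5 := rK_ge hl L
  unfold rK at h5
  rw [le_div_iff₀ (by positivity)] at h5
  have h6 : (((range (2 ^ L)).filter (fun r => ¬ AK L lam r)).card : ℝ) ≤ 2 ^ L * (1 / lam) := by
    have h7 : (1 - 1 / lam) * 2 ^ L = 2 ^ L - 2 ^ L * (1 / lam) := by ring
    rw [h7] at h5
    linarith
  rw [pow_add, mul_assoc]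
  exact mul_le_mul_of_nonneg_left h6 (by positivity)

theorem card_W {η lam : ℝ} (h0 : 0 < η) (hη : η ≤ 1) (hl : 0 < lam) (a b : ℝ) (J L : ℕ)
    [DecidablePred fun r => Gd η (Zf a b J r) ∧ AK L lam (T^[J + 1] r)] :
    1 - hJ a b J - bJ η a b J - 1 / lam ≤
      (((range (2 ^ (J + 1 + L))).filter (fun r => Gd η (Zf a b J r) ∧ AK L lam (T^[J + 1] r))).card : ℝ)
        / 2 ^ (J + 1 + L) := by
  classical
  have h1 : (((range (2 ^ (J + 1 + L))).filter (fun r => Gd η (Zf a b J r))).card : ℝ)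
      = 2 ^ (J + 1 + L) * (1 - hJ a b J - bJ η a b J) := by
    have hper : Per (J + 1) (fun r => if Gd η (Zf a b J r) then (1 : ℝ) else 0) := by
      intro n m
      have := Zf_per a b J n m
      simp only at this
      simp only [this]
    have h2 := sum_per hper L
    rw [sum_boole, sum_boole, card_good h0 hη] at h2
    rw [h2, pow_add]; ring
  have h2 := card_nAK (lam := lam) hl (J + 1) L
  have h3 : ((range (2 ^ (J + 1 + L))).filter (fun r => Gd η (Zf a b J r))).card ≤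
      ((range (2 ^ (J + 1 + L))).filter (fun r => Gd η (Zf a b J r) ∧ AK L lam (T^[J + 1] r))).card +
      ((range (2 ^ (J + 1 + L))).filter (fun r => ¬ AK L lam (T^[J + 1] r))).card := by
    refine (card_le_card ?_).trans (card_union_le _ _)
    intro r hr
    rw [mem_filter] at hr
    rw [mem_union, mem_filter, mem_filter]
    by_cases h : AK L lam (T^[J + 1] r)
    · exact Or.inl ⟨hr.1, hr.2, h⟩
    · exact Or.inr ⟨hr.1, h⟩
  have h4 : (((range (2 ^ (J + 1 + L))).filter (fun r => Gd η (Zf a b J r))).card : ℝ) ≤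
      (((range (2 ^ (J + 1 + L))).filter (fun r => Gd η (Zf a b J r) ∧ AK L lam (T^[J + 1] r))).card : ℝ) +
      (((range (2 ^ (J + 1 + L))).filter (fun r => ¬ AK L lam (T^[J + 1] r))).card : ℝ) := by exact_mod_cast h3
  rw [le_div_iff₀ (by positivity)]
  have h5 : (1 - hJ a b J - bJ η a b J - 1 / lam) * 2 ^ (J + 1 + L)
      = 2 ^ (J + 1 + L) * (1 - hJ a b J - bJ η a b J) - 2 ^ (J + 1 + L) * (1 / lam) := by ring
  rw [h5]
  linarith

/-- exceeding `lam m` has one of four causes -/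
theorem exceed {P : ℕ → Prop} {lam : ℝ} (hl : 1 ≤ lam) {L n1 : ℕ}
    (hn1 : ∀ k ≤ L, ∀ a ≤ L, (3 : ℝ) ^ a < lam * 2 ^ k → (3 : ℝ) ^ L ≤ (lam * 2 ^ k - 3 ^ a) * n1) {m k : ℕ}
    (hm : 1 ≤ m) (hmn : n1 < m) (hA : AK L lam m) (hlt : lam * m < ((T^[k] m : ℕ) : ℝ)) (hP : P m) :
    (L ≤ k ∧ 2 ^ k ≤ m ∧ m ≤ T^[k] m) ∨ (P m ∧ m < 2 ^ k ∧ m ≤ T^[k] m) := by
  have hmR : (0 : ℝ) < m := by exact_mod_cast hm
  have hle : m ≤ T^[k] m := by
    have h4 : (m : ℝ) ≤ lam * m := by nlinarith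
    have h5 : (m : ℝ) < ((T^[k] m : ℕ) : ℝ) := by linarith
    exact_mod_cast h5.le
  rcases Nat.lt_or_ge m (2 ^ k) with h2 | h2
  · exact Or.inr ⟨hP, h2, hle⟩
  · rcases Nat.lt_or_ge k L with h3 | h3
    · exfalso
      have hk1 : 1 ≤ k := by
        by_contra h0
        have : k = 0 := by omega
        subst this
        simp only [Function.iterate_zero, id] at hlt
        nlinarith
      have h4 := hA k hk1 h3.le
      have h5 := hn1 k h3.le (od k m) ((od_le k m).trans h3.le) h4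
      have h6 := iter_real k m
      rw [← T_eq] at h6
      have h7 : (er k m : ℝ) ≤ 3 ^ L := by
        have h8 : er k m ≤ 3 ^ k := by
          have := er_le k m
          exact le_trans (Nat.le_add_right _ _) this
        have h9 : 3 ^ k ≤ 3 ^ L := Nat.pow_le_pow_right (by norm_num) h3.le
        exact_mod_cast h8.trans h9
      have h8 : (lam * 2 ^ k - 3 ^ od k m) * (n1 : ℝ) ≤ (lam * 2 ^ k - 3 ^ od k m) * m := by
        apply mul_le_mul_of_nonneg_left _ (by linarith)
        exact_mod_cast hmn.le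
      have h9 : (2 : ℝ) ^ k * ((T^[k] m : ℕ) : ℝ) ≤ 2 ^ k * (lam * m) := by
        rw [h6]
        have : (2 : ℝ) ^ k * (lam * m) = 3 ^ od k m * m + (lam * 2 ^ k - 3 ^ od k m) * m := by ring
        rw [this]; linarith
      have h10 := le_of_mul_le_mul_left h9 (by positivity)
      linarith
    · exact Or.inl ⟨h3, h2, hle⟩

end Pool.Agent.W2helper41.CH
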