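import Pool.Agent.W2helper41.CH.Seq

/-!
The critical points, and bounds for the escape probability.
-/

set_option autoImplicit false

namespace Pool.Agent.W2helper41.CH

open Finset Filter Topology Real
open Pool.Agent.H934R2.Ch (T f df deriv_f df_even_left df_odd pi_sq_gt pi_sq_lt cos_lb2 sin_lb3)
open Pool.Agent.Y296.CB (crit_zone crit_odd_near ts_zone)

/-! ### Bounds for the escape probability -/

theorem esc_le_of {g : ℝ → ℝ} (h1 : ∀ z, eI z ≤ g z) (h2 : ∀ z, (g (E z) + g (O z)) / 2 ≤ g z) (z : ℝ) :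
    esc z ≤ g z := by
  have key : ∀ K z, avg eI K z ≤ g z := by
    intro K
    induction K with
    | zero => intro z; exact h1 z
    | succ K ih =>
      intro z
      rw [avg_succ]
      linarith [ih (E z), ih (O z), h2 z]
  exact le_of_tendsto' (esc_tendsto z) fun K => key K z

/-- a supermartingale above the escape indicator -/
noncomputable def gU (z : ℝ) : ℝ :=
  if 0 ≤ z then (if z ≤ 3 then 0 else 1)
  else if -1 ≤ z then Real.sqrt (-z) / 2 else if -4 ≤ z then 1 / 2 else 1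

theorem gU_trap {z : ℝ} (h0 : 0 ≤ z) (h3 : z ≤ 3) : gU z = 0 := by unfold gU; rw [if_pos h0, if_pos h3]

theorem gU_le_one (z : ℝ) : gU z ≤ 1 := by
  unfold gU
  split_ifs with h1 h2 h3
  · norm_num
  · norm_num
  · have : Real.sqrt (-z) ≤ Real.sqrt 1 := Real.sqrt_le_sqrt (by linarith)
    rw [Real.sqrt_one] at this
    linarith
  · norm_num
  · norm_num

theorem gU_nonneg (z : ℝ) : 0 ≤ gU z := by
  unfold gU
  split_ifs <;> positivity

theorem gU_sqrt {z : ℝ} (h : z < 0) : gU z ≤ Real.sqrt (-z) / 2 := by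
  unfold gU
  rw [if_neg (by linarith)]
  split_ifs with h1 h2
  · exact le_rfl
  · have : Real.sqrt 1 ≤ Real.sqrt (-z) := Real.sqrt_le_sqrt (by linarith)
    rw [Real.sqrt_one] at this
    linarith
  · have : Real.sqrt (2 ^ 2) ≤ Real.sqrt (-z) := Real.sqrt_le_sqrt (by linarith)
    rw [Real.sqrt_sq (by norm_num)] at this
    linarith

theorem sqrt_one_add_le {u : ℝ} (h : -1 ≤ u) : Real.sqrt (1 + u) ≤ 1 + u / 2 := by
  rw [show 1 + u / 2 = Real.sqrt ((1 + u / 2) ^ 2) from (Real.sqrt_sq (by linarith)).symm]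
  exact Real.sqrt_le_sqrt (by nlinarith [sq_nonneg u])

theorem gU_step (z : ℝ) : (gU (E z) + gU (O z)) / 2 ≤ gU z := by
  rcases le_or_gt 0 z with h0 | h0
  · rcases le_or_gt z 3 with h3 | h3
    · have e1 : 0 ≤ E z ∧ E z ≤ 3 := by unfold E; constructor <;> nlinarith
      have e2 : 0 ≤ O z ∧ O z ≤ 3 := by
        unfold O; constructor <;> nlinarith [sq_nonneg (z - 3 / 2)]
      rw [gU_trap e1.1 e1.2, gU_trap e2.1 e2.2, gU_trap h0 h3]; norm_num
    · have : gU z = 1 := by unfold gU; rw [if_pos h0, if_neg (by linarith)]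
      rw [this]
      linarith [gU_le_one (E z), gU_le_one (O z)]
  · rcases lt_or_ge z (-4) with h4 | h4
    · have : gU z = 1 := by
        unfold gU; rw [if_neg (by linarith), if_neg (by linarith), if_neg (by linarith)]
      rw [this]
      linarith [gU_le_one (E z), gU_le_one (O z)]
    · rcases lt_or_ge z (-1) with h1 | h1
      · have : gU z = 1 / 2 := by
          unfold gU; rw [if_neg (by linarith), if_neg (by linarith), if_pos h4]
        have e1 : 0 ≤ E z ∧ E z ≤ 3 := by unfold E; constructor <;> nlinarith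
        rw [this, gU_trap e1.1 e1.2]
        linarith [gU_le_one (O z)]
      · have hz : gU z = Real.sqrt (-z) / 2 := by
          unfold gU; rw [if_neg (by linarith), if_pos h1]
        obtain ⟨y, hy⟩ : ∃ y, y = -z := ⟨_, rfl⟩
        have hzy : z = -y := by linarith
        have hy0 : 0 < y := by linarith
        have hy1 : y ≤ 1 := by linarith
        have hs : 0 ≤ Real.sqrt y := Real.sqrt_nonneg _
        have hO : O z < 0 := by unfold O; nlinarith
        have a2 : gU (O z) ≤ Real.sqrt y * (3 / 2 * (1 + y / 3 / 2)) / 2 := by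
          refine (gU_sqrt hO).trans ?_
          have e : -O z = y * ((3 / 2) ^ 2 * (1 + y / 3)) := by unfold O; rw [hzy]; ring
          rw [e, Real.sqrt_mul hy0.le, Real.sqrt_mul (by norm_num), Real.sqrt_sq (by norm_num)]
          have := sqrt_one_add_le (u := y / 3) (by linarith)
          have h5 : 3 / 2 * Real.sqrt (1 + y / 3) ≤ 3 / 2 * (1 + y / 3 / 2) := by linarith
          have h6 := mul_le_mul_of_nonneg_left h5 hs
          linarith
        have a1 : gU (E z) ≤ Real.sqrt y * (1 / 2 * (1 + -y / 2)) / 2 := by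
          rcases lt_or_ge (E z) 0 with hE | hE
          · refine (gU_sqrt hE).trans ?_
            have e : -E z = y * ((1 / 2) ^ 2 * (1 + -y)) := by unfold E; rw [hzy]; ring
            rw [e, Real.sqrt_mul hy0.le, Real.sqrt_mul (by norm_num), Real.sqrt_sq (by norm_num)]
            have := sqrt_one_add_le (u := -y) (by linarith)
            have h5 : 1 / 2 * Real.sqrt (1 + -y) ≤ 1 / 2 * (1 + -y / 2) := by linarith
            have h6 := mul_le_mul_of_nonneg_left h5 hs
            linarith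
          · have e3 : E z ≤ 3 := by unfold E; rw [hzy]; nlinarith
            rw [gU_trap hE e3]
            have : 0 ≤ 1 / 2 * (1 + -y / 2) := by linarith
            positivity
        rw [hz, ← hy]
        have e : (Real.sqrt y * (1 / 2 * (1 + -y / 2)) / 2 + Real.sqrt y * (3 / 2 * (1 + y / 3 / 2)) / 2) / 2
            = Real.sqrt y / 2 := by ring
        linarith

theorem eI_le_gU (z : ℝ) : eI z ≤ gU z := by
  by_cases h : 5 < |z|
  · have h1 : eI z = 1 := by unfold eI; rw [if_pos h]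
    rw [h1]
    apply le_of_eq
    rcases lt_abs.1 h with h2 | h2
    · unfold gU; rw [if_pos (by linarith), if_neg (by linarith)]
    · unfold gU; rw [if_neg (by linarith), if_neg (by linarith), if_neg (by linarith)]
  · have h1 : eI z = 0 := by unfold eI; rw [if_neg h]
    rw [h1]; exact gU_nonneg z

theorem esc_le_gU (z : ℝ) : esc z ≤ gU z := esc_le_of eI_le_gU gU_step z

theorem esc_trap {z : ℝ} (h0 : 0 ≤ z) (h3 : z ≤ 3) : esc z = 0 :=
  le_antisymm ((esc_le_gU z).trans (gU_trap h0 h3).le) (esc_bounds z).1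

theorem esc_upper : esc (-(1 / 16)) ≤ 1 / 8 := by
  refine (esc_le_gU _).trans ((gU_sqrt (by norm_num)).trans (le_of_eq ?_))
  rw [show (-(-(1 / 16)) : ℝ) = (1 / 4) ^ 2 by norm_num, Real.sqrt_sq (by norm_num)]; norm_num

theorem esc_lower : 1 / 32 ≤ esc (-(1 / 16)) := by
  have h : ∀ z, esc (O z) / 2 ≤ esc z := by
    intro z
    rw [esc_step z]
    linarith [(esc_bounds (E z)).1]
  have h1 := h (-(1 / 16))
  have h2 := h (O (-(1 / 16)))
  have h3 := h (O (O (-(1 / 16))))
  have h4 := h (O (O (O (-(1 / 16)))))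
  have h5 := h (O (O (O (O (-(1 / 16))))))
  have h6 : 1 ≤ esc (O (O (O (O (O (-(1 / 16))))))) := by
    refine le_trans ?_ (avg_le_esc 0 _)
    rw [avg_zero]
    have : 5 < |O (O (O (O (O (-(1 / 16))))))| := by unfold O; norm_num [abs_of_neg]
    unfold eI
    rw [if_pos this]
  linarith

/-! ### The critical points -/

theorem E_half : E (-(1 / 2)) = -(1 / 16) := by unfold E; norm_num

theorem O_half : O (3 / 2) = 27 / 16 := by unfold O; norm_num

theorem hh_crit : hh (-(1 / 2)) (3 / 2) = esc (-(1 / 16)) / 2 := by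
  unfold hh
  rw [E_half, O_half, esc_trap (z := 27 / 16) (by norm_num) (by norm_num), add_zero]

theorem crit_even_dev {m : ℕ} (hm : 1 ≤ m) {c : ℝ} (hc : |c - (2 * m : ℕ)| < 1 / 2) (h : deriv f c = 0) :
    |dev (2 * m) c - -(1 / 2)| ≤ 20 / m := by
  obtain ⟨h1, h2⟩ := crit_zone hm hc h
  obtain ⟨e, he⟩ : ∃ e : ℝ, e = (2 * m : ℕ) - c := ⟨_, rfl⟩
  have hce : c = (2 * m : ℕ) - e := by rw [he]; ring
  have he0 : 0 ≤ e := by rw [he]; linarith
  have hmR : (1 : ℝ) ≤ m := by exact_mod_cast hm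
  rw [← he] at h2
  have hts := ts_zone he0 h2
  rw [deriv_f, hce, df_even_left] at h
  obtain ⟨s, hs⟩ : ∃ s : ℝ, s = 4 * (m : ℝ) + 1 := ⟨_, rfl⟩
  have hs5 : 5 ≤ s := by linarith
  rw [← hs] at h2
  obtain ⟨t, ht⟩ : ∃ t : ℝ, t = π ^ 2 * s / 4 * e := ⟨_, rfl⟩
  have hdev : dev (2 * m) c - -(1 / 2) = 1 / 2 - t := by
    rw [hce, ht, hs]; unfold dev; push_cast; ring
  have ht28 : t ≤ 2.8 := by
    have : Pool.Agent.Y296.CB.ts (2 * m) e = t := by
      rw [ht, hs]; unfold Pool.Agent.Y296.CB.ts; push_cast; ring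
    rw [← this]; exact hts
  have hp1 := pi_sq_lt
  have hp0 := pi_sq_gt
  have hpi := Real.pi_pos
  have hpe : 0 ≤ π * e := by positivity
  have hsin0 : π * e - (π * e) ^ 3 / 6 ≤ Real.sin (π * e) := sin_lb3 hpe
  have hsin1 : Real.sin (π * e) ≤ π * e := Real.sin_le hpe
  have hcos0 := cos_lb2 (π * e)
  have hcos1 := Real.cos_le_one (π * e)
  have he1 : e ≤ 0.22 := by nlinarith
  have hse : 0 ≤ 4 * (m : ℝ) - 2 * e + 1 := by linarith
  -- lower bound
  have hlow : 1 / 2 ≤ t := by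
    have a1 : π * (4 * m - 2 * e + 1) / 4 * Real.sin (π * e) ≤ π * s / 4 * (π * e) := by
      have b1 : π * (4 * m - 2 * e + 1) / 4 * Real.sin (π * e) ≤ π * (4 * m - 2 * e + 1) / 4 * (π * e) :=
        mul_le_mul_of_nonneg_left hsin1 (by positivity)
      have b2 : π * (4 * m - 2 * e + 1) / 4 * (π * e) ≤ π * s / 4 * (π * e) := by
        apply mul_le_mul_of_nonneg_right _ hpe
        have : π * (4 * m - 2 * e + 1) ≤ π * s := mul_le_mul_of_nonneg_left (by linarith) hpi.le
        linarith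
      exact b1.trans b2
    have e1 : π * s / 4 * (π * e) = t := by rw [ht]; ring
    rw [e1] at a1
    linarith
  have hup : t - 1 / 2 ≤ 20 * e := by
    have a1 : π * (4 * m - 2 * e + 1) / 4 * (π * e - (π * e) ^ 3 / 6) ≤
        π * (4 * m - 2 * e + 1) / 4 * Real.sin (π * e) := mul_le_mul_of_nonneg_left hsin0 (by positivity)
    have e1 : π * (4 * m - 2 * e + 1) / 4 * (π * e - (π * e) ^ 3 / 6)
        = t - π ^ 2 * e ^ 2 / 2 - t * (π ^ 2 * e ^ 2) / 6 + π ^ 4 * e ^ 4 / 12 := by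
      rw [ht, hs]; ring
    rw [e1] at a1
    have a2 : π ^ 2 * e ^ 2 ≤ 2.2 * e := by
      have : e ^ 2 ≤ 0.22 * e := by nlinarith
      nlinarith
    have a3 : 0 ≤ π ^ 4 * e ^ 4 / 12 := by positivity
    have a4 : (π * e) ^ 2 = π ^ 2 * e ^ 2 := by ring
    rw [a4] at hcos0
    have a5 : t * (π ^ 2 * e ^ 2) ≤ 2.8 * (π ^ 2 * e ^ 2) := mul_le_mul_of_nonneg_right ht28 (by positivity)
    linarith
  rw [hdev, abs_sub_comm, abs_of_nonneg (by linarith)]
  refine hup.trans ?_
  rw [le_div_iff₀ (by linarith)]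
  have : e * m ≤ 1 := by nlinarith
  linarith

theorem crit_odd_dev {m : ℕ} {c : ℝ} (hc : |c - (2 * m + 1 : ℕ)| < 1 / 2) (h : deriv f c = 0) :
    |dev (2 * m + 1) c - 3 / 2| ≤ 20 / (m + 1) := by
  have h1 := crit_odd_near (n := 2 * m + 1) (by omega) hc h
  obtain ⟨h1, h2⟩ := h1
  obtain ⟨d, hd⟩ : ∃ d : ℝ, d = c - (2 * m + 1 : ℕ) := ⟨_, rfl⟩
  have hcd : c = (2 * m + 1 : ℕ) + d := by rw [hd]; ring
  have hd0 : 0 ≤ d := by rw [hd]; linarith
  have hmR : (0 : ℝ) ≤ m := by positivity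
  obtain ⟨s, hs⟩ : ∃ s : ℝ, s = 4 * (m : ℝ) + 3 := ⟨_, rfl⟩
  have hs3 : 3 ≤ s := by linarith
  have hds : d * s ≤ 5 / 6 := by
    have h3 : d ≤ Pool.Agent.H934R2.Ch.b (2 * m + 1) := by rw [hd]; linarith
    have hb : Pool.Agent.H934R2.Ch.b (2 * m + 1) = 5 / (6 * s) := by
      unfold Pool.Agent.H934R2.Ch.b; rw [hs]; push_cast; ring_nf
    rw [hb, le_div_iff₀ (by positivity)] at h3
    linarith
  rw [deriv_f, hcd, df_odd] at h
  obtain ⟨t, ht⟩ : ∃ t : ℝ, t = π ^ 2 * s / 4 * d := ⟨_, rfl⟩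
  have hdev : dev (2 * m + 1) c - 3 / 2 = t - 3 / 2 := by
    rw [hcd, ht, hs]; unfold dev; push_cast; ring
  have hp1 := pi_sq_lt
  have hp0 := pi_sq_gt
  have hpi := Real.pi_pos
  have ht0 : 0 ≤ t := by rw [ht]; positivity
  have ht28 : t ≤ 2.8 := by
    have e1 : t = π ^ 2 * (d * s) / 4 := by rw [ht]; ring
    rw [e1]
    have : 0 ≤ d * s := by positivity
    nlinarith
  have hpe : 0 ≤ π * d := by positivity
  have hsin0 : π * d - (π * d) ^ 3 / 6 ≤ Real.sin (π * d) := sin_lb3 hpe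
  have hsin1 : Real.sin (π * d) ≤ π * d := Real.sin_le hpe
  have hcos0 := cos_lb2 (π * d)
  have hcos1 := Real.cos_le_one (π * d)
  have hd1 : d ≤ 0.3 := by nlinarith
  have hse : 0 ≤ 4 * (m : ℝ) + 2 * d + 3 := by linarith
  have a2 : π ^ 2 * d ^ 2 ≤ 3 * d := by
    have : d ^ 2 ≤ 0.3 * d := by nlinarith
    nlinarith
  have a4 : (π * d) ^ 2 = π ^ 2 * d ^ 2 := by ring
  rw [a4] at hcos0
  have hlow : -(20 * d) ≤ t - 3 / 2 := by
    have a1 : π * (4 * m + 2 * d + 3) / 4 * Real.sin (π * d) ≤ π * (4 * m + 2 * d + 3) / 4 * (π * d) :=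
      mul_le_mul_of_nonneg_left hsin1 (by positivity)
    have e1 : π * (4 * m + 2 * d + 3) / 4 * (π * d) = t + π ^ 2 * d ^ 2 / 2 := by rw [ht, hs]; ring
    rw [e1] at a1
    linarith
  have hup : t - 3 / 2 ≤ 20 * d := by
    have a1 : π * (4 * m + 2 * d + 3) / 4 * (π * d - (π * d) ^ 3 / 6) ≤
        π * (4 * m + 2 * d + 3) / 4 * Real.sin (π * d) := mul_le_mul_of_nonneg_left hsin0 (by positivity)
    have e1 : π * (4 * m + 2 * d + 3) / 4 * (π * d - (π * d) ^ 3 / 6)
        = t + π ^ 2 * d ^ 2 / 2 - t * (π ^ 2 * d ^ 2) / 6 - (π ^ 2 * d ^ 2) * (π ^ 2 * d ^ 2) / 12 := by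
      rw [ht, hs]; ring
    rw [e1] at a1
    have a5 : t * (π ^ 2 * d ^ 2) ≤ 2.8 * (π ^ 2 * d ^ 2) := mul_le_mul_of_nonneg_right ht28 (by positivity)
    have a6 : (π ^ 2 * d ^ 2) * (π ^ 2 * d ^ 2) ≤ (π ^ 2 * d ^ 2) * 1 := by
      apply mul_le_mul_of_nonneg_left _ (by positivity)
      linarith
    have a7 : 0 ≤ π ^ 2 * d ^ 2 := by positivity
    linarith
  rw [hdev]
  have h3 : |t - 3 / 2| ≤ 20 * d := by rw [abs_le]; exact ⟨hlow, hup⟩
  refine h3.trans ?_
  rw [le_div_iff₀ (by positivity)]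
  have : d * (m + 1) ≤ 1 := by nlinarith
  linarith

/-- **the critical points have convergent scaled deviations** -/
theorem crit_conv {c : ℕ → ℝ} (hc : ∀ n, 1 ≤ n → |c n - n| < 1 / 2 ∧ deriv f (c n) = 0) :
    Conv c (-(1 / 2)) (3 / 2) := by
  have hlim : Tendsto (fun m : ℕ => (20 : ℝ) / m) atTop (𝓝 0) := tendsto_const_div_atTop_nhds_zero_nat 20
  have hlim' : Tendsto (fun m : ℕ => (20 : ℝ) / (m + 1)) atTop (𝓝 0) := by
    have := (hlim.comp (tendsto_add_atTop_nat 1))
    refine this.congr fun m => ?_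
    simp
  constructor
  · rw [tendsto_iff_norm_sub_tendsto_zero]
    refine squeeze_zero' (Eventually.of_forall fun _ => norm_nonneg _) ?_ hlim
    filter_upwards [eventually_ge_atTop 1] with m hm
    have h1 := hc (2 * m) (by omega)
    exact crit_even_dev hm h1.1 h1.2
  · rw [tendsto_iff_norm_sub_tendsto_zero]
    refine squeeze_zero' (Eventually.of_forall fun _ => norm_nonneg _) ?_ hlim'
    filter_upwards with m
    have h1 := hc (2 * m + 1) (by omega)
    exact crit_odd_dev h1.1 h1.2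

end Pool.Agent.W2helper41.CH
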