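import Pool.Agent.W2helper41.CH.Asm

/-!
The exact law, in abstract form.
-/

set_option autoImplicit false

namespace Pool.Agent.W2helper41.CH

open Finset Filter Topology
open Pool.Agent.H934R2.Ch (T f T_even T_odd T_iter_pos)
open Pool.Agent.H499R2.ND (Dn cnt Tn Bdd rK cnt_eq cnt_mono cnt_or cnt_le cntn_nonneg zd_iff zd_bdd AK AK_mod dn_res
  early late th th_pos th_lt rK_ge exists_nK iter_real er_le od_le Bdd_inv)
open Pool.Agent.Helper894.Collatz (od er)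

/-- the mean escape probability -/
noncomputable def hh (a b : ℝ) : ℝ := (esc (E a) + esc (O b)) / 2

theorem hJ_tendsto (a b : ℝ) : Tendsto (hJ a b) atTop (𝓝 (hh a b)) :=
  ((esc_tendsto (E a)).add (esc_tendsto (O b))).div_const 2

theorem hJ_le (a b : ℝ) (J : ℕ) : hJ a b J ≤ hh a b := by
  unfold hJ hh
  linarith [avg_le_esc J (E a), avg_le_esc J (O b)]

theorem hh_bounds (a b : ℝ) : 0 ≤ hh a b ∧ hh a b ≤ 1 := by
  obtain ⟨h1, h2⟩ := esc_bounds (E a)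
  obtain ⟨h3, h4⟩ := esc_bounds (O b)
  unfold hh
  constructor <;> linarith

theorem bJ_tendsto {η : ℝ} (h0 : 0 < η) (h1 : η ≤ 1) (a b : ℝ) : Tendsto (bJ η a b) atTop (𝓝 0) := by
  have := ((bI_tendsto h0 h1 (E a)).add (bI_tendsto h0 h1 (O b))).div_const 2
  rw [add_zero, zero_div] at this
  exact this

theorem d_bounds {P : ℕ → Prop} {d : ℝ} (hd : Dn P d) : 0 ≤ d ∧ d ≤ 1 := by
  constructor
  · refine ge_of_tendsto' hd fun N => ?_
    have := cntn_nonneg P N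
    positivity
  · refine le_of_tendsto hd ?_
    filter_upwards [eventually_gt_atTop 0] with N hN
    have : (0 : ℝ) < N := by exact_mod_cast hN
    rw [div_le_one this]
    exact cnt_le P N

theorem dn_near {P : ℕ → Prop} {d : ℝ} (hd : Dn P d) {ε : ℝ} (hε : 0 < ε) :
    ∀ᶠ N : ℕ in atTop, (d - ε) * N ≤ cnt P N ∧ cnt P N ≤ (d + ε) * N := by
  filter_upwards [hd.eventually (gt_mem_nhds (show d < d + ε by linarith)),
    hd.eventually (lt_mem_nhds (show d - ε < d by linarith)), eventually_gt_atTop 0] with N h1 h2 h3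
  have : (0 : ℝ) < N := by exact_mod_cast h3
  rw [div_lt_iff₀ this] at h1
  rw [lt_div_iff₀ this] at h2
  exact ⟨h2.le, h1.le⟩

theorem dn_of_near {P : ℕ → Prop} {d : ℝ} (h1 : ∀ ε : ℝ, 0 < ε → ∀ᶠ N : ℕ in atTop, (d - ε) * N ≤ cnt P N)
    (h2 : ∀ ε : ℝ, 0 < ε → ∀ᶠ N : ℕ in atTop, cnt P N ≤ (d + ε) * N) : Dn P d := by
  unfold Dn
  rw [Metric.tendsto_atTop]
  intro ε hε
  obtain ⟨N1, hN1⟩ := eventually_atTop.1 (h1 (ε / 2) (by positivity))
  obtain ⟨N2, hN2⟩ := eventually_atTop.1 (h2 (ε / 2) (by positivity))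
  refine ⟨max (max N1 N2) 1, fun N hN => ?_⟩
  have g1 := hN1 N ((le_max_left _ _).trans ((le_max_left _ _).trans hN))
  have g2 := hN2 N ((le_max_right _ _).trans ((le_max_left _ _).trans hN))
  have g3 : 1 ≤ N := (le_max_right _ _).trans hN
  have hN0 : (0 : ℝ) < N := by exact_mod_cast g3
  rw [Real.dist_eq, abs_lt]
  have e1 : cnt P N / N ≤ d + ε / 2 := by rw [div_le_iff₀ hN0]; exact g2
  have e2 : d - ε / 2 ≤ cnt P N / N := by rw [le_div_iff₀ hN0]; exact g1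
  constructor <;> linarith

theorem law_upper {P Q : ℕ → Prop} {d : ℝ} (hP : ∀ n, P n ↔ P (Tn n)) (hd : Dn P d) (a b : ℝ)
    (hU : ∀ J, ∃ N : ℕ, ∀ n, N ≤ n → 5 < |Zf a b J n| → ¬ Q n) :
    ∀ ε : ℝ, 0 < ε → ∀ᶠ N : ℕ in atTop, cnt (fun n => P n ∧ Q n) N ≤ (d * (1 - hh a b) + ε) * N := by
  classical
  intro ε hε
  obtain ⟨hd0, hd1⟩ := d_bounds hd
  obtain ⟨J, hJ'⟩ := ((hJ_tendsto a b).eventually (lt_mem_nhds (show hh a b - ε / 4 < hh a b by linarith))).exists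
  obtain ⟨N0, hN0⟩ := hU J
  have hW : Per (J + 1) (fun n => |Zf a b J n| ≤ 5) := by
    intro n m
    have := Zf_per a b J n m
    simp only at this
    simp only [this]
  have h1 := dn_word hP hd hW
  rw [card_esc] at h1
  have e1 : (2 : ℝ) ^ (J + 1) * (1 - hJ a b J) / 2 ^ (J + 1) * d = d * (1 - hJ a b J) := by field_simp
  rw [e1] at h1
  filter_upwards [dn_near h1 (show (0 : ℝ) < ε / 4 by positivity),
    zd_iff.1 (zd_bdd N0) (ε / 4) (by positivity)] with N h2 h3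
  have h4 : cnt (fun n => P n ∧ Q n) N ≤ cnt (fun n => |Zf a b J n| ≤ 5 ∧ P n) N + cnt (fun n : ℕ => (n : ℝ) ≤ N0) N := by
    refine cnt_or N fun n _ _ hp => ?_
    rcases Nat.lt_or_ge n N0 with h5 | h5
    · right
      exact_mod_cast h5.le
    · left
      refine ⟨?_, hp.1⟩
      by_contra hcon
      push Not at hcon
      exact hN0 n h5 hcon hp.2
  have hN : (0 : ℝ) ≤ N := Nat.cast_nonneg N
  have h5 : d * (1 - hJ a b J) ≤ d * (1 - hh a b) + ε / 4 := by nlinarith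
  have h6 : (d * (1 - hJ a b J) + ε / 4) * N ≤ (d * (1 - hh a b) + ε / 4 + ε / 4) * N :=
    mul_le_mul_of_nonneg_right (by linarith) hN
  nlinarith [h2.2]

/-- the good words, inside an invariant set -/
theorem good_words {P : ℕ → Prop} {d : ℝ} (hP : ∀ n, P n ↔ P (Tn n)) (hd : Dn P d) (a b : ℝ) {ε : ℝ}
    (hε : 0 < ε) : ∃ lam η : ℝ, ∃ J : ℕ, 1 ≤ lam ∧ 0 < η ∧ η * lam ^ 2 ≤ 1 / 12 ∧ ∀ L,
      ∀ᶠ N : ℕ in atTop, (d * (1 - hh a b) - ε) * N ≤
        cnt (fun n => (Gd η (Zf a b J n) ∧ AK L lam (T^[J + 1] n)) ∧ P n) N := by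
  classical
  obtain ⟨hd0, hd1⟩ := d_bounds hd
  obtain ⟨lam, hlam⟩ : ∃ lam : ℝ, lam = 1 + 8 / ε := ⟨_, rfl⟩
  have hl1 : 1 ≤ lam := by rw [hlam]; have : 0 < 8 / ε := by positivity
                           linarith
  have hl0 : 0 < lam := by linarith
  have hli : 1 / lam ≤ ε / 8 := by
    rw [div_le_div_iff₀ hl0 (by norm_num), hlam]
    have : ε * (1 + 8 / ε) = ε + 8 := by field_simp
    rw [this]; linarith
  obtain ⟨η, hη⟩ : ∃ η : ℝ, η = 1 / (12 * lam ^ 2) := ⟨_, rfl⟩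
  have hη0 : 0 < η := by rw [hη]; positivity
  have hη2 : η * lam ^ 2 = 1 / 12 := by rw [hη]; field_simp
  have hη1 : η ≤ 1 := by
    have : 1 ≤ lam ^ 2 := by nlinarith
    nlinarith
  obtain ⟨J, hJ'⟩ := ((bJ_tendsto hη0 hη1 a b).eventually (gt_mem_nhds (show (0 : ℝ) < ε / 8 by positivity))).exists
  refine ⟨lam, η, J, hl1, hη0, hη2.le, fun L => ?_⟩
  have hW : Per (J + 1 + L) (fun n => Gd η (Zf a b J n) ∧ AK L lam (T^[J + 1] n)) := by
    intro n m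
    have h1 := (Zf_per a b J).mono (Nat.le_add_right (J + 1) L) n m
    have h2 := (AK_per L lam).ti (J + 1) n m
    simp only at h1 h2
    simp only [h1, h2]
  have h1 := dn_word hP hd hW
  have h2 := card_W hη0 hη1 hl0 a b J L
  filter_upwards [dn_near h1 (show (0 : ℝ) < ε / 4 by positivity)] with N h3
  have hN : (0 : ℝ) ≤ N := Nat.cast_nonneg N
  have h4 := hJ_le a b J
  have h5 : d * (1 - hh a b) - ε ≤ (((range (2 ^ (J + 1 + L))).filter
      (fun r => Gd η (Zf a b J r) ∧ AK L lam (T^[J + 1] r))).card : ℝ) / 2 ^ (J + 1 + L) * d - ε / 4 := by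
    have h6 := mul_le_mul_of_nonneg_right h2 hd0
    have h7 : d * (1 - hh a b) - ε / 4 ≤ (1 - hJ a b J - bJ η a b J - 1 / lam) * d := by nlinarith
    linarith
  exact (mul_le_mul_of_nonneg_right h5 hN).trans h3.1

theorem small_L (J : ℕ) {ε : ℝ} (hε : 0 < ε) : ∃ L, 4 ^ J * (4 * th ^ L / (1 - th)) < ε := by
  have h1 : Tendsto (fun K => 4 ^ J * (4 * th ^ K / (1 - th))) atTop (𝓝 0) := by
    have := (((tendsto_pow_atTop_nhds_zero_of_lt_one th_pos.le th_lt).const_mul 4).div_const (1 - th)).const_mul ((4 : ℝ) ^ J)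
    simpa using this
  exact (h1.eventually (gt_mem_nhds hε)).exists

/-- exceeded early -/
def EarlyP (L m : ℕ) : Prop := ∃ k, L ≤ k ∧ 2 ^ k ≤ m ∧ m ≤ T^[k] m

/-- exceeded late -/
def LateP (P : ℕ → Prop) (m : ℕ) : Prop := P m ∧ ∃ k, m < 2 ^ k ∧ m ≤ T^[k] m

theorem early_pre (J L N : ℕ) : cnt (fun n => EarlyP L (T^[J] n)) N ≤
    4 ^ J * (4 * th ^ L / (1 - th)) * N := by
  refine (cnt_pre J (EarlyP L) N).trans ?_
  have h1 : cnt (EarlyP L) (2 ^ J * N) ≤ 4 * th ^ L / (1 - th) * ((2 ^ J * N : ℕ) : ℝ) := early L (2 ^ J * N)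
  have h2 := mul_le_mul_of_nonneg_left h1 (by positivity : (0 : ℝ) ≤ 2 ^ J)
  refine h2.trans (le_of_eq ?_)
  have e : (4 : ℝ) ^ J = 2 ^ J * 2 ^ J := by rw [← mul_pow]; norm_num
  push_cast
  rw [e]
  ring

theorem P_iter {P : ℕ → Prop} (hP : ∀ n, P n ↔ P (Tn n)) (k n : ℕ) : P n ↔ P (T^[k] n) := by
  induction k with
  | zero => rfl
  | succ k ih => rw [Function.iterate_succ_apply', ih]; exact hP _

theorem law_lower {P Q : ℕ → Prop} {d : ℝ} (hP : ∀ n, P n ↔ P (Tn n)) (hPB : ∀ n, P n → Bdd n) (hd : Dn P d)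
    (a b : ℝ)
    (hL : ∀ (J : ℕ) (η lam : ℝ), 0 < η → 1 ≤ lam → η * lam ^ 2 ≤ 1 / 12 → ∃ N : ℕ, ∀ n, N ≤ n →
      Gd η (Zf a b J n) → (∀ k, ((T^[k] (T^[J + 1] n) : ℕ) : ℝ) ≤ lam * (T^[J + 1] n : ℕ)) → Q n) :
    ∀ ε : ℝ, 0 < ε → ∀ᶠ N : ℕ in atTop, (d * (1 - hh a b) - ε) * N ≤ cnt (fun n => P n ∧ Q n) N := by
  classical
  intro ε hε
  obtain ⟨lam, η, J, hl1, hη0, hη2, hgood⟩ := good_words hP hd a b (ε := ε / 4) (by positivity)
  obtain ⟨N0, hN0⟩ := hL J η lam hη0 hl1 hη2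
  obtain ⟨L, hLs⟩ := small_L (J + 1) (ε := ε / 4) (by positivity)
  obtain ⟨n1, hn1⟩ := exists_nK L lam
  have hlate : Dn (fun n => LateP P (T^[J + 1] n)) 0 := zd_pre (J + 1) (Q := LateP P) (late hP hPB)
  filter_upwards [hgood L, zd_iff.1 hlate (ε / 4) (by positivity),
    zd_iff.1 (zd_bdd (N0 + 2 ^ (J + 1) * n1)) (ε / 4) (by positivity), eventually_gt_atTop 0] with N g1 g2 g3 g4
  have g5 := early_pre (J + 1) L N
  have hN : (0 : ℝ) < N := by exact_mod_cast g4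
  have g6 : 4 ^ (J + 1) * (4 * th ^ L / (1 - th)) * N ≤ ε / 4 * N := mul_le_mul_of_nonneg_right hLs.le hN.le
  have key : cnt (fun n => (Gd η (Zf a b J n) ∧ AK L lam (T^[J + 1] n)) ∧ P n) N ≤
      cnt (fun n => P n ∧ Q n) N + (cnt (fun n => EarlyP L (T^[J + 1] n)) N
      + (cnt (fun n => LateP P (T^[J + 1] n)) N
      + cnt (fun n : ℕ => (n : ℝ) ≤ N0 + 2 ^ (J + 1) * n1) N)) := by
    refine (cnt_or N (Q := fun n => P n ∧ Q n)
      (R := fun n => EarlyP L (T^[J + 1] n) ∨ (LateP P (T^[J + 1] n) ∨ (n : ℝ) ≤ N0 + 2 ^ (J + 1) * n1))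
      fun n hn hnN hp => ?_).trans
      (add_le_add le_rfl ((cnt_or N fun n _ _ h => h).trans (add_le_add le_rfl (cnt_or N fun n _ _ h => h))))
    by_contra hcon
    push Not at hcon
    obtain ⟨hc1, hc2, hc3, hc4⟩ := hcon
    obtain ⟨⟨hg, hA⟩, hPn⟩ := hp
    have hc5 : N0 + 2 ^ (J + 1) * n1 < n := by exact_mod_cast hc4
    have hm : 1 ≤ T^[J + 1] n := T_iter_pos hn (J + 1)
    have hmn : n1 < T^[J + 1] n := by
      have h1 := T_iter_ge (J + 1) n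
      have h2 : 2 ^ (J + 1) * n1 < 2 ^ (J + 1) * T^[J + 1] n := by omega
      exact Nat.lt_of_mul_lt_mul_left h2
    apply hc1 hPn
    refine hN0 n (by omega) hg fun k => ?_
    by_contra hlt
    push Not at hlt
    rcases exceed hl1 hn1 hm hmn hA hlt ((P_iter hP (J + 1) n).1 hPn) with ⟨h1, h2, h3⟩ | ⟨h1, h2, h3⟩
    · exact hc2 ⟨k, h1, h2, h3⟩
    · exact hc3 ⟨h1, k, h2, h3⟩
  have g7 : cnt (fun n : ℕ => (n : ℝ) ≤ N0 + 2 ^ (J + 1) * n1) N ≤ ε / 4 * N := by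
    exact_mod_cast g3
  have e : (d * (1 - hh a b) - ε) * N = (d * (1 - hh a b) - ε / 4) * N - ε / 4 * N - ε / 4 * N - ε / 4 * N := by ring
  rw [e]
  linarith

/-- **The exact law, abstract form.** -/
theorem law {P Q : ℕ → Prop} {d : ℝ} (hP : ∀ n, P n ↔ P (Tn n)) (hPB : ∀ n, P n → Bdd n) (hd : Dn P d)
    (a b : ℝ) (hU : ∀ J, ∃ N : ℕ, ∀ n, N ≤ n → 5 < |Zf a b J n| → ¬ Q n)
    (hL : ∀ (J : ℕ) (η lam : ℝ), 0 < η → 1 ≤ lam → η * lam ^ 2 ≤ 1 / 12 → ∃ N : ℕ, ∀ n, N ≤ n →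
      Gd η (Zf a b J n) → (∀ k, ((T^[k] (T^[J + 1] n) : ℕ) : ℝ) ≤ lam * (T^[J + 1] n : ℕ)) → Q n) :
    Dn (fun n => P n ∧ Q n) (d * (1 - hh a b)) :=
  dn_of_near (law_lower hP hPB hd a b hL) (law_upper hP hd a b hU)

end Pool.Agent.W2helper41.CH
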