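import Pool.Agent.W2helper41.CH.Ter

/-!
One step of Chamberland's map near a large integer, in the scaled deviation.
-/

set_option autoImplicit false

namespace Pool.Agent.W2helper41.CH

open Pool.Agent.H934R2.Ch Real

/-- scaled deviation from the integer `n` -/
noncomputable def dev (n : ℕ) (x : ℝ) : ℝ := π ^ 2 * (2 * (n : ℝ) + 1) / 4 * (x - n)

theorem one_sub_cos (y : ℝ) : 0 ≤ 1 - Real.cos y ∧ 1 - Real.cos y ≤ y ^ 2 / 2 ∧
    |1 - Real.cos y - y ^ 2 / 2| ≤ (y ^ 2) ^ 2 / 24 := by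
  have h1 := Real.cos_le_one y
  have h2 := cos_lb2 y
  have h3 : Real.cos y ≤ 1 - y ^ 2 / 2 + y ^ 4 / 24 := by
    rcases le_total 0 y with h | h
    · exact cos_ub4 h
    · have := cos_ub4 (t := -y) (by linarith)
      rw [Real.cos_neg] at this
      have e2 : (-y) ^ 2 = y ^ 2 := by ring
      have e4 : (-y) ^ 4 = y ^ 4 := by ring
      rwa [e2, e4] at this
  have e : (y ^ 2) ^ 2 = y ^ 4 := by ring
  refine ⟨by linarith, by linarith, ?_⟩
  rw [e, abs_le]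
  have h4 : 0 ≤ y ^ 4 := by positivity
  constructor <;> linarith

theorem pw {w R : ℝ} (h0 : 0 ≤ w) (hw : w ≤ R) (hR : 1 ≤ R) : w ≤ R ^ 4 ∧ w ^ 2 ≤ R ^ 4 ∧ w ^ 3 ≤ R ^ 4 ∧
    w ^ 4 ≤ R ^ 4 := by
  have h1 : w ^ 4 ≤ R ^ 4 := pow_le_pow_left₀ h0 hw 4
  have h2 : w ^ 3 ≤ R ^ 3 := pow_le_pow_left₀ h0 hw 3
  have h3 : w ^ 2 ≤ R ^ 2 := pow_le_pow_left₀ h0 hw 2
  have h4 : R ^ 3 ≤ R ^ 4 := pow_le_pow_right₀ hR (by norm_num)
  have h5 : R ^ 2 ≤ R ^ 4 := pow_le_pow_right₀ hR (by norm_num)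
  have h6 : R ≤ R ^ 4 := by
    calc R = R ^ 1 := (pow_one R).symm
      _ ≤ R ^ 4 := pow_le_pow_right₀ hR (by norm_num)
  exact ⟨hw.trans h6, h3.trans h5, h2.trans h4, h1⟩

theorem loc_even (m : ℕ) (x : ℝ) {R : ℝ} (hR : 1 ≤ R) (h : |dev (2 * m) x| ≤ R) :
    |dev m (f x) - E (dev (2 * m) x)| ≤ 3 * R ^ 4 / (2 * ((2 * m : ℕ) : ℝ) + 1) := by
  have hp := pi_sq_gt
  obtain ⟨p, hpd⟩ : ∃ p : ℝ, p = π ^ 2 := ⟨_, rfl⟩
  obtain ⟨d, hd⟩ : ∃ d : ℝ, d = x - (2 * m : ℕ) := ⟨_, rfl⟩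
  obtain ⟨s, hs⟩ : ∃ s : ℝ, s = 4 * (m : ℝ) + 1 := ⟨_, rfl⟩
  obtain ⟨t, ht⟩ : ∃ t : ℝ, t = dev (2 * m) x := ⟨_, rfl⟩
  have hmR : (0 : ℝ) ≤ m := by positivity
  have hs1 : 1 ≤ s := by linarith
  have hx : x = (2 * m : ℕ) + d := by rw [hd]; ring
  have hf := f_even m d
  rw [← hx] at hf
  obtain ⟨hu0, hu1, hu2⟩ := one_sub_cos (π * d)
  obtain ⟨u, hu⟩ : ∃ u : ℝ, u = 1 - Real.cos (π * d) := ⟨_, rfl⟩
  obtain ⟨a, ha⟩ : ∃ a : ℝ, a = (π * d) ^ 2 := ⟨_, rfl⟩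
  rw [← hu] at hu0 hu1 hu2
  rw [← ha] at hu1 hu2
  have htd : t = p * s / 4 * d := by
    rw [ht, hd, hpd, hs]; unfold dev; push_cast; ring
  have hp0 : 0 < p := by rw [hpd]; linarith
  have hdt : d = 4 * t / (p * s) := by rw [htd]; field_simp
  have hat : a = 16 * t ^ 2 / (p * s ^ 2) := by
    rw [ha, mul_pow, ← hpd, hdt]; field_simp; ring
  have hd' : dev m (f x) = p * (s + 1) / 8 * (s / 4 * u + d * (1 / 2 + u / 2)) := by
    have : Real.cos (π * d) = 1 - u := by rw [hu]; ring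
    unfold dev
    rw [hf, this, hs, hpd]; ring
  have hden : 2 * ((2 * m : ℕ) : ℝ) + 1 = s := by rw [hs]; push_cast; ring
  rw [hden, ← ht]
  have key : dev m (f x) - E t = t * (1 + t) / (4 * s) + p * (s + 1) / 8 * (s / 4) * (u - a / 2)
      + p * (s + 1) / 8 * d * (u / 2) := by
    rw [hd', hat]
    unfold E
    rw [hdt]
    field_simp
    ring
  rw [key]
  rw [← ht] at h
  obtain ⟨w1, w2, w3, w4⟩ := pw (abs_nonneg t) h hR
  have hw0 : 0 ≤ |t| := abs_nonneg t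
  have ha0 : 0 ≤ a := by rw [ha]; positivity
  have b1 : |t * (1 + t) / (4 * s)| ≤ R ^ 4 / s := by
    rw [abs_div, abs_mul, abs_of_pos (by positivity : (0 : ℝ) < 4 * s), div_le_div_iff₀ (by positivity) (by positivity)]
    have : |1 + t| ≤ 1 + |t| := by
      refine (abs_add_le 1 t).trans ?_
      rw [abs_one]
    have h1 : |t| * |1 + t| ≤ |t| * (1 + |t|) := mul_le_mul_of_nonneg_left this hw0
    have h2 : |t| * (1 + |t|) ≤ 2 * R ^ 4 := by nlinarith
    nlinarith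
  have habs : |d| = 4 * |t| / (p * s) := by
    rw [hdt, abs_div, abs_mul, abs_of_pos (by norm_num : (0 : ℝ) < 4), abs_of_pos (by positivity : 0 < p * s)]
  have hat' : a = 16 * |t| ^ 2 / (p * s ^ 2) := by rw [hat, sq_abs]
  have b2 : |p * (s + 1) / 8 * (s / 4) * (u - a / 2)| ≤ R ^ 4 / s := by
    rw [abs_mul, abs_of_nonneg (by positivity : (0 : ℝ) ≤ p * (s + 1) / 8 * (s / 4))]
    have h1 : p * (s + 1) / 8 * (s / 4) ≤ p * s ^ 2 / 16 := by
      have := mul_nonneg (mul_nonneg hp0.le (by linarith : (0 : ℝ) ≤ s)) (sub_nonneg.2 hs1)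
      linarith
    have h2 : p * (s + 1) / 8 * (s / 4) * |u - a / 2| ≤ p * s ^ 2 / 16 * (a ^ 2 / 24) :=
      mul_le_mul h1 hu2 (abs_nonneg _) (by positivity)
    refine h2.trans ?_
    have h3 : p * s ^ 2 / 16 * (a ^ 2 / 24) = 2 / 3 * |t| ^ 4 / (p * s ^ 2) := by
      rw [hat']; field_simp; ring
    rw [h3, div_le_div_iff₀ (by positivity) (by positivity)]
    have h4 : s ≤ p * s ^ 2 := by nlinarith
    have h5 : 0 ≤ |t| ^ 4 := by positivity
    have h6 : 0 ≤ R ^ 4 := by positivity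
    nlinarith [mul_le_mul w4 h4 (by linarith) h6]
  have b3 : |p * (s + 1) / 8 * d * (u / 2)| ≤ R ^ 4 / s := by
    rw [abs_mul, abs_mul, abs_of_nonneg (by positivity : (0 : ℝ) ≤ p * (s + 1) / 8),
      abs_of_nonneg (by positivity : (0 : ℝ) ≤ u / 2)]
    have h1 : p * (s + 1) / 8 ≤ p * s / 4 := by nlinarith
    have h2 : p * (s + 1) / 8 * |d| * (u / 2) ≤ p * s / 4 * |d| * (a / 2 / 2) :=
      mul_le_mul (mul_le_mul_of_nonneg_right h1 (abs_nonneg d)) (by linarith) (by positivity)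
        (by positivity)
    refine h2.trans ?_
    have h3 : p * s / 4 * |d| * (a / 2 / 2) = 4 * |t| ^ 3 / (p * s ^ 2) := by
      rw [hat', habs]; field_simp; ring
    rw [h3, div_le_div_iff₀ (by positivity) (by positivity)]
    have h4 : 4 * s ≤ p * s ^ 2 := by nlinarith
    have h5 : 0 ≤ |t| ^ 3 := by positivity
    have h6 : 0 ≤ R ^ 4 := by positivity
    nlinarith [mul_le_mul w3 h4 (by linarith) h6]
  have h7 : 3 * R ^ 4 / s = R ^ 4 / s + R ^ 4 / s + R ^ 4 / s := by ring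
  rw [h7]
  exact (abs_add_le _ _).trans (add_le_add ((abs_add_le _ _).trans (add_le_add b1 b2)) b3)

theorem loc_odd (m : ℕ) (x : ℝ) {R : ℝ} (hR : 1 ≤ R) (h : |dev (2 * m + 1) x| ≤ R) :
    |dev (3 * m + 2) (f x) - O (dev (2 * m + 1) x)| ≤ 3 * R ^ 4 / (2 * ((2 * m + 1 : ℕ) : ℝ) + 1) := by
  have hp := pi_sq_gt
  obtain ⟨p, hpd⟩ : ∃ p : ℝ, p = π ^ 2 := ⟨_, rfl⟩
  obtain ⟨d, hd⟩ : ∃ d : ℝ, d = x - (2 * m + 1 : ℕ) := ⟨_, rfl⟩
  obtain ⟨s, hs⟩ : ∃ s : ℝ, s = 4 * (m : ℝ) + 3 := ⟨_, rfl⟩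
  obtain ⟨t, ht⟩ : ∃ t : ℝ, t = dev (2 * m + 1) x := ⟨_, rfl⟩
  have hmR : (0 : ℝ) ≤ m := by positivity
  have hs1 : 3 ≤ s := by linarith
  have hx : x = (2 * m + 1 : ℕ) + d := by rw [hd]; ring
  have hf := f_odd m d
  rw [← hx] at hf
  obtain ⟨hu0, hu1, hu2⟩ := one_sub_cos (π * d)
  obtain ⟨u, hu⟩ : ∃ u : ℝ, u = 1 - Real.cos (π * d) := ⟨_, rfl⟩
  obtain ⟨a, ha⟩ : ∃ a : ℝ, a = (π * d) ^ 2 := ⟨_, rfl⟩
  rw [← hu] at hu0 hu1 hu2
  rw [← ha] at hu1 hu2
  have htd : t = p * s / 4 * d := by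
    rw [ht, hd, hpd, hs]; unfold dev; push_cast; ring
  have hp0 : 0 < p := by rw [hpd]; linarith
  have hdt : d = 4 * t / (p * s) := by rw [htd]; field_simp
  have hat : a = 16 * t ^ 2 / (p * s ^ 2) := by
    rw [ha, mul_pow, ← hpd, hdt]; field_simp; ring
  have hd' : dev (3 * m + 2) (f x) = p * (3 * s + 1) / 8 * (d * (3 / 2 - u / 2) - s / 4 * u) := by
    have : Real.cos (π * d) = 1 - u := by rw [hu]; ring
    unfold dev
    rw [hf, this, hs, hpd]; push_cast; ring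
  have hden : 2 * ((2 * m + 1 : ℕ) : ℝ) + 1 = s := by rw [hs]; push_cast; ring
  rw [hden, ← ht]
  have key : dev (3 * m + 2) (f x) - O t = t * (3 - t) / (4 * s) + -(p * (3 * s + 1) / 8 * (s / 4) * (u - a / 2))
      + -(p * (3 * s + 1) / 8 * d * (u / 2)) := by
    rw [hd', hat]
    unfold O
    rw [hdt]
    field_simp
    ring
  rw [key]
  rw [← ht] at h
  obtain ⟨w1, w2, w3, w4⟩ := pw (abs_nonneg t) h hR
  have hw0 : 0 ≤ |t| := abs_nonneg t
  have ha0 : 0 ≤ a := by rw [ha]; positivity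
  have b1 : |t * (3 - t) / (4 * s)| ≤ R ^ 4 / s := by
    rw [abs_div, abs_mul, abs_of_pos (by positivity : (0 : ℝ) < 4 * s), div_le_div_iff₀ (by positivity) (by positivity)]
    have : |3 - t| ≤ 3 + |t| := by
      refine (abs_sub 3 t).trans ?_
      rw [abs_of_pos (by norm_num : (0 : ℝ) < 3)]
    have h1 : |t| * |3 - t| ≤ |t| * (3 + |t|) := mul_le_mul_of_nonneg_left this hw0
    have h2 : |t| * (3 + |t|) ≤ 4 * R ^ 4 := by nlinarith
    nlinarith
  have habs : |d| = 4 * |t| / (p * s) := by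
    rw [hdt, abs_div, abs_mul, abs_of_pos (by norm_num : (0 : ℝ) < 4), abs_of_pos (by positivity : 0 < p * s)]
  have hat' : a = 16 * |t| ^ 2 / (p * s ^ 2) := by rw [hat, sq_abs]
  have b2 : |-(p * (3 * s + 1) / 8 * (s / 4) * (u - a / 2))| ≤ R ^ 4 / s := by
    rw [abs_neg, abs_mul, abs_of_nonneg (by positivity : (0 : ℝ) ≤ p * (3 * s + 1) / 8 * (s / 4))]
    have h1 : p * (3 * s + 1) / 8 * (s / 4) ≤ p * s ^ 2 / 8 := by
      have := mul_nonneg (mul_nonneg hp0.le (by linarith : (0 : ℝ) ≤ s)) (by linarith : (0 : ℝ) ≤ s - 1)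
      linarith
    have h2 : p * (3 * s + 1) / 8 * (s / 4) * |u - a / 2| ≤ p * s ^ 2 / 8 * (a ^ 2 / 24) :=
      mul_le_mul h1 hu2 (abs_nonneg _) (by positivity)
    refine h2.trans ?_
    have h3 : p * s ^ 2 / 8 * (a ^ 2 / 24) = 4 / 3 * |t| ^ 4 / (p * s ^ 2) := by
      rw [hat']; field_simp; ring
    rw [h3, div_le_div_iff₀ (by positivity) (by positivity)]
    have h4 : 2 * s ≤ p * s ^ 2 := by nlinarith
    have h5 : 0 ≤ |t| ^ 4 := by positivity
    have h6 : 0 ≤ R ^ 4 := by positivity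
    nlinarith [mul_le_mul w4 h4 (by linarith) h6]
  have b3 : |-(p * (3 * s + 1) / 8 * d * (u / 2))| ≤ R ^ 4 / s := by
    rw [abs_neg, abs_mul, abs_mul, abs_of_nonneg (by positivity : (0 : ℝ) ≤ p * (3 * s + 1) / 8),
      abs_of_nonneg (by positivity : (0 : ℝ) ≤ u / 2)]
    have h1 : p * (3 * s + 1) / 8 ≤ p * s / 2 := by nlinarith
    have h2 : p * (3 * s + 1) / 8 * |d| * (u / 2) ≤ p * s / 2 * |d| * (a / 2 / 2) :=
      mul_le_mul (mul_le_mul_of_nonneg_right h1 (abs_nonneg d)) (by linarith) (by positivity)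
        (by positivity)
    refine h2.trans ?_
    have h3 : p * s / 2 * |d| * (a / 2 / 2) = 8 * |t| ^ 3 / (p * s ^ 2) := by
      rw [hat', habs]; field_simp; ring
    rw [h3, div_le_div_iff₀ (by positivity) (by positivity)]
    have h4 : 8 * s ≤ p * s ^ 2 := by nlinarith
    have h5 : 0 ≤ |t| ^ 3 := by positivity
    have h6 : 0 ≤ R ^ 4 := by positivity
    nlinarith [mul_le_mul w3 h4 (by linarith) h6]
  have h7 : 3 * R ^ 4 / s = R ^ 4 / s + R ^ 4 / s + R ^ 4 / s := by ring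
  rw [h7]
  exact (abs_add_le _ _).trans (add_le_add ((abs_add_le _ _).trans (add_le_add b1 b2)) b3)

/-- **one step** -/
theorem loc1 (n : ℕ) (x : ℝ) {R : ℝ} (hR : 1 ≤ R) (h : |dev n x| ≤ R) :
    |dev (T n) (f x) - st n (dev n x)| ≤ 3 * R ^ 4 / (2 * (n : ℝ) + 1) := by
  rcases Nat.even_or_odd' n with ⟨m, rfl | rfl⟩
  · rw [T_even]
    unfold st; rw [if_pos (by omega)]
    exact loc_even m x hR h
  · rw [T_odd]
    unfold st; rw [if_neg (by omega)]
    exact loc_odd m x hR h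

theorem st_bound {n : ℕ} {z R : ℝ} (hR : 1 ≤ R) (h : |z| ≤ R) : |st n z| ≤ 3 * R ^ 2 := by
  have h1 := abs_le.1 h
  have h2 : z ^ 2 ≤ R ^ 2 := by nlinarith
  have h3 := sq_nonneg z
  have h4 : R ≤ R ^ 2 := by nlinarith
  unfold st E O
  split_ifs <;> rw [abs_le] <;> constructor <;> nlinarith

theorem st_lip {n : ℕ} {a z R : ℝ} (hR : 1 ≤ R) (h : |z| ≤ R) (ha : |a| ≤ 2 * R) :
    |st n a - st n z| ≤ 5 * R * |a - z| := by
  have h1 := abs_le.1 h
  have h2 := abs_le.1 ha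
  unfold st
  split_ifs
  · have e : E a - E z = (1 + a + z) / 4 * (a - z) := by unfold E; ring
    rw [e, abs_mul]
    apply mul_le_mul_of_nonneg_right _ (abs_nonneg _)
    rw [abs_le]; constructor <;> linarith
  · have e : O a - O z = (9 - 3 * a - 3 * z) / 4 * (a - z) := by unfold O; ring
    rw [e, abs_mul]
    apply mul_le_mul_of_nonneg_right _ (abs_nonneg _)
    rw [abs_le]; constructor <;> linarith

theorem T_ge (n : ℕ) : n ≤ 2 * T n := by
  unfold T; split_ifs <;> omega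

/-- **finitely many steps** -/
theorem locK (K : ℕ) : ∀ R : ℝ, 1 ≤ R → ∀ ε : ℝ, 0 < ε → ∃ N : ℕ, ∃ δ : ℝ, 0 < δ ∧ ∀ n : ℕ, N ≤ n →
    ∀ x z : ℝ, |z| ≤ R → |dev n x - z| ≤ δ → ∀ k ≤ K, |dev (T^[k] n) (f^[k] x) - Zc k n z| ≤ ε := by
  induction K with
  | zero =>
    intro R _ ε hε
    refine ⟨0, ε, hε, fun n _ x z _ h k hk => ?_⟩
    have : k = 0 := by omega
    subst this
    exact h
  | succ K ih =>
    intro R hR ε hε
    obtain ⟨N', δ', hδ', h'⟩ := ih (3 * R ^ 2) (by nlinarith) ε hε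
    obtain ⟨N1, hN1⟩ := exists_nat_ge (96 * R ^ 4 / δ')
    refine ⟨max (2 * N') N1, min ε (min 1 (δ' / (10 * R))), by positivity, fun n hn x z hz hd k hk => ?_⟩
    have hd1 : |dev n x - z| ≤ ε := hd.trans (min_le_left _ _)
    have hd2 : |dev n x - z| ≤ 1 := hd.trans ((min_le_right _ _).trans (min_le_left _ _))
    have hd3 : |dev n x - z| ≤ δ' / (10 * R) := hd.trans ((min_le_right _ _).trans (min_le_right _ _))
    rcases k with _ | k
    · exact hd1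
    · have ha : |dev n x| ≤ 2 * R := by
        have := abs_add_le (dev n x - z) z
        rw [sub_add_cancel] at this
        linarith
      have g1 := loc1 n x (R := 2 * R) (by linarith) ha
      have g2 := st_lip (n := n) hR hz ha
      have hR0 : 0 < R := by linarith
      have hnN1 : (N1 : ℝ) ≤ n := by exact_mod_cast (le_max_right _ _).trans hn
      have g3 : 3 * (2 * R) ^ 4 / (2 * (n : ℝ) + 1) ≤ δ' / 2 := by
        rw [div_le_div_iff₀ (by positivity) (by norm_num)]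
        have : 96 * R ^ 4 ≤ N1 * δ' := by
          rwa [div_le_iff₀ hδ'] at hN1
        have h5 : N1 * δ' ≤ n * δ' := mul_le_mul_of_nonneg_right hnN1 hδ'.le
        nlinarith
      have g4 : 5 * R * |dev n x - z| ≤ δ' / 2 := by
        have := mul_le_mul_of_nonneg_left hd3 (by positivity : 0 ≤ 5 * R)
        have e : 5 * R * (δ' / (10 * R)) = δ' / 2 := by field_simp; norm_num
        linarith
      have g5 : |dev (T n) (f x) - st n z| ≤ δ' := by
        have e : dev (T n) (f x) - st n z = (dev (T n) (f x) - st n (dev n x)) + (st n (dev n x) - st n z) := by ring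
        rw [e]
        refine (abs_add_le _ _).trans ?_
        linarith
      have hTN : N' ≤ T n := by
        have h1 := T_ge n
        have h2 : 2 * N' ≤ n := (le_max_left _ _).trans hn
        omega
      exact h' (T n) hTN (f x) (st n z) (st_bound hR hz) g5 k (by omega)

end Pool.Agent.W2helper41.CH
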