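import Mathlib

/-!
The random quadratic system `E z = (z + z²) / 4`, `O z = (9 z - 3 z²) / 4`, each with probability `1/2`.
-/

set_option autoImplicit false

namespace Pool.Agent.W2helper41.CH

open Finset Filter Topology

/-- the even map -/
noncomputable def E (z : ℝ) : ℝ := (z + z ^ 2) / 4

/-- the odd map -/
noncomputable def O (z : ℝ) : ℝ := (9 * z - 3 * z ^ 2) / 4

/-- the mean of `g` after `K` random steps from `z` -/
noncomputable def avg (g : ℝ → ℝ) : ℕ → ℝ → ℝ
  | 0, z => g z
  | K + 1, z => (avg g K (E z) + avg g K (O z)) / 2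

theorem avg_zero (g : ℝ → ℝ) (z : ℝ) : avg g 0 z = g z := rfl

theorem avg_succ (g : ℝ → ℝ) (K : ℕ) (z : ℝ) : avg g (K + 1) z = (avg g K (E z) + avg g K (O z)) / 2 := rfl

theorem avg_mono {g h : ℝ → ℝ} (hgh : ∀ z, g z ≤ h z) (K : ℕ) (z : ℝ) : avg g K z ≤ avg h K z := by
  induction K generalizing z with
  | zero => exact hgh z
  | succ K ih =>
    rw [avg_succ, avg_succ]
    linarith [ih (E z), ih (O z)]

theorem avg_const (c : ℝ) (K : ℕ) (z : ℝ) : avg (fun _ => c) K z = c := by
  induction K generalizing z with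
  | zero => rfl
  | succ K ih =>
    rw [avg_succ, ih, ih]; ring

theorem avg_add (g h : ℝ → ℝ) (K : ℕ) (z : ℝ) : avg (fun w => g w + h w) K z = avg g K z + avg h K z := by
  induction K generalizing z with
  | zero => rfl
  | succ K ih =>
    rw [avg_succ, avg_succ, avg_succ, ih, ih]; ring

theorem avg_smul (c : ℝ) (g : ℝ → ℝ) (K : ℕ) (z : ℝ) : avg (fun w => c * g w) K z = c * avg g K z := by
  induction K generalizing z with
  | zero => rfl
  | succ K ih =>
    rw [avg_succ, avg_succ, ih, ih]; ring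

theorem avg_comm (g : ℝ → ℝ) (K : ℕ) (z : ℝ) :
    avg g (K + 1) z = avg (fun w => (g (E w) + g (O w)) / 2) K z := by
  induction K generalizing z with
  | zero => rfl
  | succ K ih =>
    rw [avg_succ, ih, ih, ← avg_succ]

/-- a supermartingale with a rate -/
theorem avg_rate {g : ℝ → ℝ} {ρ : ℝ} (hρ : 0 ≤ ρ) (h : ∀ z, (g (E z) + g (O z)) / 2 ≤ ρ * g z) (K : ℕ)
    (z : ℝ) : avg g K z ≤ ρ ^ K * g z := by
  induction K with
  | zero => rw [avg_zero, pow_zero, one_mul]
  | succ K ih =>
    rw [avg_comm]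
    refine (avg_mono h K z).trans ?_
    rw [avg_smul, pow_succ]
    nlinarith

/-- the indicator of `5 < |z|` -/
noncomputable def eI (z : ℝ) : ℝ := if 5 < |z| then 1 else 0

theorem eI_nonneg (z : ℝ) : 0 ≤ eI z := by unfold eI; split_ifs <;> norm_num

theorem eI_le_one (z : ℝ) : eI z ≤ 1 := by unfold eI; split_ifs <;> norm_num

/-- one step expands outside of `[-5, 5]` -/
theorem grow_E {z R : ℝ} (hR : 5 ≤ R) (h : R < |z|) : R < |E z| := by
  unfold E
  rcases le_or_gt 0 z with h0 | h0
  · rw [abs_of_nonneg h0] at h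
    rw [abs_of_nonneg (by positivity)]
    nlinarith
  · rw [abs_of_neg h0] at h
    have : 0 ≤ (z + z ^ 2) / 4 := by nlinarith
    rw [abs_of_nonneg this]
    nlinarith

theorem grow_O {z R : ℝ} (hR : 5 ≤ R) (h : R < |z|) : 3 / 2 * R < |O z| := by
  unfold O
  rcases le_or_gt 0 z with h0 | h0
  · rw [abs_of_nonneg h0] at h
    have : (9 * z - 3 * z ^ 2) / 4 < 0 := by nlinarith
    rw [abs_of_neg this]
    nlinarith
  · rw [abs_of_neg h0] at h
    have : (9 * z - 3 * z ^ 2) / 4 < 0 := by nlinarith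
    rw [abs_of_neg this]
    nlinarith

theorem eI_abs (z : ℝ) : eI z ≤ (eI (E z) + eI (O z)) / 2 := by
  by_cases h : 5 < |z|
  · have h1 := grow_E le_rfl h
    have h2 : 5 < |O z| := lt_trans (by norm_num) (grow_O le_rfl h)
    unfold eI
    rw [if_pos h, if_pos h1, if_pos h2]; norm_num
  · have h1 := eI_nonneg (E z)
    have h2 := eI_nonneg (O z)
    have h3 : eI z = 0 := by unfold eI; rw [if_neg h]
    rw [h3]; positivity

theorem esc_mono (z : ℝ) : Monotone (fun K => avg eI K z) := by
  apply monotone_nat_of_le_succ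
  intro K
  rw [avg_comm]
  exact avg_mono eI_abs K z

theorem esc_le_one (K : ℕ) (z : ℝ) : avg eI K z ≤ 1 := by
  have := avg_mono eI_le_one K z
  rwa [avg_const] at this

theorem esc_nonneg (K : ℕ) (z : ℝ) : 0 ≤ avg eI K z := by
  have := avg_mono eI_nonneg K z
  rwa [avg_const] at this

/-- the probability of escape -/
noncomputable def esc (z : ℝ) : ℝ := ⨆ K, avg eI K z

theorem esc_tendsto (z : ℝ) : Tendsto (fun K => avg eI K z) atTop (𝓝 (esc z)) :=
  tendsto_atTop_ciSup (esc_mono z) ⟨1, by rintro _ ⟨K, rfl⟩; exact esc_le_one K z⟩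

theorem avg_le_esc (K : ℕ) (z : ℝ) : avg eI K z ≤ esc z :=
  (esc_mono z).ge_of_tendsto (esc_tendsto z) K

theorem esc_bounds (z : ℝ) : 0 ≤ esc z ∧ esc z ≤ 1 :=
  ⟨(esc_nonneg 0 z).trans (avg_le_esc 0 z), le_of_tendsto' (esc_tendsto z) fun K => esc_le_one K z⟩

theorem esc_step (z : ℝ) : esc z = (esc (E z) + esc (O z)) / 2 := by
  have h1 := (esc_tendsto z).comp (tendsto_add_atTop_nat 1)
  have h2 := ((esc_tendsto (E z)).add (esc_tendsto (O z))).div_const 2
  exact tendsto_nhds_unique h1 (h2.congr fun K => rfl)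

/-! ### The Lyapunov function -/

/-- fourth root -/
noncomputable def fr (y : ℝ) : ℝ := Real.sqrt (Real.sqrt y)

theorem fr_nonneg (y : ℝ) : 0 ≤ fr y := Real.sqrt_nonneg _

theorem fr_pow {y : ℝ} (h : 0 ≤ y) : fr y ^ 4 = y := by
  unfold fr
  have h1 : Real.sqrt (Real.sqrt y) ^ 2 = Real.sqrt y := Real.sq_sqrt (Real.sqrt_nonneg _)
  have h2 : Real.sqrt y ^ 2 = y := Real.sq_sqrt h
  calc Real.sqrt (Real.sqrt y) ^ 4 = (Real.sqrt (Real.sqrt y) ^ 2) ^ 2 := by ring
    _ = y := by rw [h1, h2]

theorem fr_mono {x y : ℝ} (h : x ≤ y) : fr x ≤ fr y := Real.sqrt_le_sqrt (Real.sqrt_le_sqrt h)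

theorem fr_mul {x y : ℝ} (hx : 0 ≤ x) : fr (x * y) = fr x * fr y := by
  unfold fr
  rw [Real.sqrt_mul hx, Real.sqrt_mul (Real.sqrt_nonneg _)]

/-- tangent bound -/
theorem fr_le {x c : ℝ} (hx : 0 ≤ x) (hc : 0 < c) : fr x ≤ c * (3 / 4) + x / (4 * c ^ 3) := by
  have h1 := fr_pow hx
  set s := fr x with hs
  have hs0 : 0 ≤ s := fr_nonneg x
  rw [← h1]
  have h2 : c * (3 / 4) + s ^ 4 / (4 * c ^ 3) = (3 * c ^ 4 + s ^ 4) / (4 * c ^ 3) := by
    field_simp
  rw [h2, le_div_iff₀ (by positivity)]
  nlinarith [mul_nonneg (sq_nonneg (s - c)) (by positivity : (0 : ℝ) ≤ s ^ 2 + 2 * s * c + 3 * c ^ 2)]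

theorem fr_one : fr 1 = 1 := by unfold fr; simp

/-- the Lyapunov function -/
noncomputable def Ph (z : ℝ) : ℝ :=
  if z < 0 then (if -5 ≤ z then fr (-z) else 0)
  else if z ≤ 2 then 0 else if z ≤ 3 then 1 else if z ≤ 5 then 2 else 0

theorem Ph_nonneg (z : ℝ) : 0 ≤ Ph z := by
  unfold Ph
  split_ifs <;> first | exact fr_nonneg _ | norm_num

theorem Ph_neg {z : ℝ} (h : z < 0) (h5 : -5 ≤ z) : Ph z = fr (-z) := by
  unfold Ph; rw [if_pos h, if_pos h5]

theorem Ph_esc_neg {z : ℝ} (h5 : z < -5) : Ph z = 0 := by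
  unfold Ph; rw [if_pos (by linarith), if_neg (by linarith)]

theorem Ph_trap {z : ℝ} (h : 0 ≤ z) (h2 : z ≤ 2) : Ph z = 0 := by
  unfold Ph; rw [if_neg (by linarith), if_pos h2]

theorem Ph_le_one {z : ℝ} (h : 0 ≤ z) (h2 : z ≤ 3) : Ph z ≤ 1 := by
  unfold Ph; rw [if_neg (by linarith)]
  split_ifs <;> norm_num

theorem Ph_le_two {z : ℝ} (h : 0 ≤ z) : Ph z ≤ 2 := by
  unfold Ph; rw [if_neg (by linarith)]
  split_ifs <;> norm_num

theorem Ph_neg_le {z : ℝ} (h : z < 0) : Ph z ≤ 3 / 2 := by
  rcases lt_or_ge z (-5) with h5 | h5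
  · rw [Ph_esc_neg h5]; norm_num
  · rw [Ph_neg h h5]
    have h1 := fr_mono (show -z ≤ 5 by linarith)
    have h2 := fr_le (x := 5) (c := 3 / 2) (by norm_num) (by norm_num)
    refine h1.trans (h2.trans ?_)
    norm_num

/-- the rate -/
noncomputable def rho : ℝ := 0.967

theorem Ph_step (z : ℝ) : (Ph (E z) + Ph (O z)) / 2 ≤ rho * Ph z := by
  unfold rho
  rcases lt_or_ge z 0 with hz | hz
  · -- negative
    rcases lt_or_ge z (-5) with h5 | h5
    · have h1 : 5 < |z| := by rw [abs_of_neg hz]; linarith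
      have h2 := grow_E le_rfl h1
      have h3 : 5 < |O z| := lt_trans (by norm_num) (grow_O le_rfl h1)
      have hO : O z < 0 := by unfold O; nlinarith
      have hE : 0 ≤ E z := by unfold E; nlinarith
      rw [abs_of_nonneg hE] at h2
      rw [abs_of_neg hO] at h3
      have e1 : Ph (E z) = 0 := by
        unfold Ph; rw [if_neg (by linarith), if_neg (by linarith), if_neg (by linarith), if_neg (by linarith)]
      rw [e1, Ph_esc_neg (by linarith : O z < -5), Ph_esc_neg h5]
      norm_num
    · obtain ⟨y, hy⟩ : ∃ y, y = -z := ⟨_, rfl⟩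
      have hzy : z = -y := by linarith
      have hy0 : 0 < y := by linarith
      have hy5 : y ≤ 5 := by linarith
      have hPz : Ph z = fr y := by rw [Ph_neg hz h5, hy]
      have hO : O z < 0 := by unfold O; nlinarith
      rw [hPz]
      rcases lt_or_ge y 1 with h1 | h1
      · -- both images negative
        have hE : E z < 0 := by unfold E; rw [hzy]; nlinarith
        have hOl : Ph (O z) ≤ fr y * fr (9 / 4 + 3 / 4 * y) := by
          rcases lt_or_ge (O z) (-5) with h | h
          · rw [Ph_esc_neg h]; exact mul_nonneg (fr_nonneg _) (fr_nonneg _)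
          · rw [Ph_neg hO h, ← fr_mul hy0.le]
            apply fr_mono
            unfold O; rw [hzy]; nlinarith
        have hEl : Ph (E z) ≤ fr y * fr ((1 - y) / 4) := by
          rcases lt_or_ge (E z) (-5) with h | h
          · rw [Ph_esc_neg h]; exact mul_nonneg (fr_nonneg _) (fr_nonneg _)
          · rw [Ph_neg hE h, ← fr_mul hy0.le]
            apply fr_mono
            unfold E; rw [hzy]; nlinarith
        have ha := fr_le (x := 9 / 4 + 3 / 4 * y) (c := 5 / 4) (by positivity) (by norm_num)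
        have hb := fr_le (x := (1 - y) / 4) (c := 7 / 10) (by linarith) (by norm_num)
        have hs : fr (9 / 4 + 3 / 4 * y) + fr ((1 - y) / 4) ≤ 1.934 := by
          refine (add_le_add ha hb).trans ?_
          norm_num
          nlinarith
        nlinarith [fr_nonneg y]
      · have hf1 : 1 ≤ fr y := by rw [← fr_one]; exact fr_mono h1
        rcases lt_or_ge (O z) (-5) with h | h
        · rw [Ph_esc_neg h]
          have hE0 : 0 ≤ E z := by unfold E; rw [hzy]; nlinarith
          rcases le_or_gt y 4 with h4 | h4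
          · have hE3 : E z ≤ 3 := by unfold E; rw [hzy]; nlinarith
            have := Ph_le_one hE0 hE3
            linarith
          · have := Ph_le_two hE0
            have hf2 : 1.4 ≤ fr y := by
              have h7 : fr (3.8416 : ℝ) = 1.4 := by
                unfold fr
                rw [show (3.8416 : ℝ) = (1.96) ^ 2 by norm_num, Real.sqrt_sq (by norm_num),
                  show (1.96 : ℝ) = 1.4 ^ 2 by norm_num, Real.sqrt_sq (by norm_num)]
              rw [← h7]; exact fr_mono (by linarith)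
            linarith
        · -- `O z` at least `-5` forces `y ≤ 3/2`
          have hy2 : y ≤ 3 / 2 := by
            by_contra hcon
            push Not at hcon
            unfold O at h; rw [hzy] at h
            nlinarith
          have hE0 : 0 ≤ E z := by unfold E; rw [hzy]; nlinarith
          have hE2 : E z ≤ 2 := by unfold E; rw [hzy]; nlinarith
          rw [Ph_trap hE0 hE2]
          have := Ph_neg_le hO
          linarith
  · rcases le_or_gt z 2 with h2 | h2
    · have hE0 : 0 ≤ E z := by unfold E; positivity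
      have hE2 : E z ≤ 2 := by unfold E; nlinarith
      have hO0 : 0 ≤ O z := by unfold O; nlinarith
      have hO2 : O z ≤ 2 := by unfold O; nlinarith [sq_nonneg (z - 3 / 2)]
      rw [Ph_trap hE0 hE2, Ph_trap hO0 hO2, Ph_trap hz h2]; norm_num
    · rcases le_or_gt z 3 with h3 | h3
      · have hE0 : 0 ≤ E z := by unfold E; positivity
        have hE3 : E z ≤ 3 := by unfold E; nlinarith
        have hO0 : 0 ≤ O z := by unfold O; nlinarith
        have hO2 : O z ≤ 2 := by unfold O; nlinarith [sq_nonneg (z - 3 / 2)]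
        rw [Ph_trap hO0 hO2]
        have h4 := Ph_le_one hE0 hE3
        have h5 : Ph z = 1 := by unfold Ph; rw [if_neg (by linarith), if_neg (by linarith), if_pos h3]
        rw [h5]; linarith
      · rcases le_or_gt z 5 with h5 | h5
        · have hE0 : 0 ≤ E z := by unfold E; positivity
          have hO0 : O z < 0 := by unfold O; nlinarith
          have h4 := Ph_le_two hE0
          have h6 := Ph_neg_le hO0
          have h7 : Ph z = 2 := by
            unfold Ph; rw [if_neg (by linarith), if_neg (by linarith), if_neg (by linarith), if_pos h5]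
          rw [h7]; linarith
        · have h1 : 5 < |z| := by rw [abs_of_nonneg hz]; exact h5
          have h2 := grow_E le_rfl h1
          have h3 : 5 < |O z| := lt_trans (by norm_num) (grow_O le_rfl h1)
          have hO : O z < 0 := by unfold O; nlinarith
          have hE : 0 ≤ E z := by unfold E; positivity
          rw [abs_of_nonneg hE] at h2
          rw [abs_of_neg hO] at h3
          have e1 : Ph (E z) = 0 := by
            unfold Ph; rw [if_neg (by linarith), if_neg (by linarith), if_neg (by linarith), if_neg (by linarith)]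
          rw [e1, Ph_esc_neg (by linarith : O z < -5)]
          have := Ph_nonneg z
          linarith

/-- the undecided states -/
noncomputable def bI (η z : ℝ) : ℝ := if (-5 ≤ z ∧ z ≤ -η) ∨ (2 < z ∧ z ≤ 5) then 1 else 0

theorem bI_le {η : ℝ} (h0 : 0 < η) (h1 : η ≤ 1) (z : ℝ) : bI η z ≤ 1 / fr η * Ph z := by
  have hf : 0 < fr η := by unfold fr; exact Real.sqrt_pos.2 (Real.sqrt_pos.2 h0)
  have hf1 : fr η ≤ 1 := by rw [← fr_one]; exact fr_mono h1
  unfold bI
  split_ifs with h
  · rw [one_div, ← div_eq_inv_mul, le_div_iff₀ hf, one_mul]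
    rcases h with ⟨h2, h3⟩ | ⟨h2, h3⟩
    · rw [Ph_neg (by linarith) h2]
      exact fr_mono (by linarith)
    · unfold Ph
      rw [if_neg (by linarith), if_neg (by linarith)]
      split_ifs
      · exact hf1
      · linarith
  · have := Ph_nonneg z
    positivity

theorem bI_tendsto {η : ℝ} (h0 : 0 < η) (h1 : η ≤ 1) (z : ℝ) :
    Tendsto (fun K => avg (bI η) K z) atTop (𝓝 0) := by
  have hf : 0 < fr η := by unfold fr; exact Real.sqrt_pos.2 (Real.sqrt_pos.2 h0)
  have h2 : ∀ K, avg (bI η) K z ≤ 1 / fr η * (rho ^ K * Ph z) := fun K => by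
    refine (avg_mono (bI_le h0 h1) K z).trans ?_
    rw [avg_smul]
    exact mul_le_mul_of_nonneg_left (avg_rate (by unfold rho; norm_num) Ph_step K z) (by positivity)
  have h3 : ∀ K, 0 ≤ avg (bI η) K z := fun K => by
    have := avg_mono (g := fun _ => 0) (h := bI η) (fun w => by unfold bI; split_ifs <;> norm_num) K z
    rwa [avg_const] at this
  have h4 : Tendsto (fun K : ℕ => 1 / fr η * (rho ^ K * Ph z)) atTop (𝓝 0) := by
    have h5 : Tendsto (fun K : ℕ => rho ^ K) atTop (𝓝 0) :=
      tendsto_pow_atTop_nhds_zero_of_lt_one (by unfold rho; norm_num) (by unfold rho; norm_num)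
    have := (h5.mul_const (Ph z)).const_mul (1 / fr η)
    simpa using this
  exact squeeze_zero h3 h2 h4

end Pool.Agent.W2helper41.CH
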