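import Pool.Agent.W2helper41.CH.Loc
import Pool.Agent.Y296.CB.Main

/-!
The three regions: trap, just below, escaped.
-/

set_option autoImplicit false

namespace Pool.Agent.W2helper41.CH

open Pool.Agent.H934R2.Ch Real
open Pool.Agent.Y296.CB (ts V Below Trap Z Fate)

theorem ts_dev (n : ℕ) (x : ℝ) : ts n (n - x) = - dev n x := by unfold ts dev; ring

/-- following at one time -/
def Near (n : ℕ) (x : ℝ) : Prop := |x - (n : ℕ)| ≤ 11 / (5 * (2 * (n : ℝ) + 1))

theorem near_of_dev {n : ℕ} {x : ℝ} (h : |dev n x| ≤ 5.42) : Near n x := by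
  unfold Near
  have hp := pi_sq_gt
  have e : |dev n x| = π ^ 2 / 4 * ((2 * (n : ℝ) + 1) * |x - n|) := by
    unfold dev
    rw [abs_mul, abs_of_nonneg (by positivity)]; ring
  rw [e] at h
  rw [le_div_iff₀ (by positivity)]
  have h0 : 0 ≤ (2 * (n : ℝ) + 1) * |x - n| := by positivity
  nlinarith

theorem dev_of_near {n : ℕ} {x : ℝ} (h : Near n x) : |dev n x| ≤ 5.43 := by
  unfold Near at h
  have hp := pi_sq_lt
  have e : |dev n x| = π ^ 2 / 4 * ((2 * (n : ℝ) + 1) * |x - n|) := by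
    unfold dev
    rw [abs_mul, abs_of_nonneg (by positivity)]; ring
  rw [e]
  rw [le_div_iff₀ (by positivity)] at h
  have h0 : 0 ≤ (2 * (n : ℝ) + 1) * |x - n| := by positivity
  nlinarith

theorem trap_of_dev {n : ℕ} {x : ℝ} (h0 : 0 ≤ dev n x) (h1 : dev n x ≤ 2.05) : Trap n x := by
  have hp := pi_sq_gt
  have e : dev n x = π ^ 2 / 4 * ((2 * (n : ℝ) + 1) * (x - n)) := by unfold dev; ring
  rw [e] at h0 h1
  have h2 : 0 ≤ (2 * (n : ℝ) + 1) * (x - n) := by
    by_contra hcon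
    push Not at hcon
    nlinarith
  have h3 : 0 ≤ x - n := by
    by_contra hcon
    push Not at hcon
    have : (0 : ℝ) < 2 * (n : ℝ) + 1 := by positivity
    nlinarith
  refine ⟨by linarith, ?_⟩
  have h4 : x - n ≤ b n := by
    unfold b
    rw [le_div_iff₀ (by positivity)]
    nlinarith
  linarith

theorem near_of_trap {n : ℕ} {x : ℝ} (h : Trap n x) : Near n x := by
  obtain ⟨a1, a2⟩ := h
  unfold Near
  have h3 : b n ≤ 11 / (5 * (2 * (n : ℝ) + 1)) := by
    unfold b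
    rw [div_le_div_iff₀ (by positivity) (by positivity)]
    have : (0 : ℝ) ≤ n := by positivity
    linarith
  rw [abs_le]
  have : (0 : ℝ) ≤ 11 / (5 * (2 * (n : ℝ) + 1)) := by positivity
  constructor <;> linarith

theorem near_of_Z {n : ℕ} {x : ℝ} (h : Z n x) : Near n x := by
  obtain ⟨h1, h2⟩ := h
  rw [ts_dev] at h2
  apply near_of_dev
  have h3 : dev n x ≤ 0 := by
    unfold dev
    apply mul_nonpos_of_nonneg_of_nonpos (by positivity) (by linarith)
  rw [abs_of_nonpos h3]; linarith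

/-- one step just below -/
theorem below_step {A : ℝ} {n : ℕ} (hn1 : 1 ≤ n) {x : ℝ} (h : Below A n x)
    (ht : ts n (n - x) ≤ 2.8) : Below A (T n) (f x) ∨ Trap (T n) (f x) := by
  obtain ⟨hx, hV⟩ := h
  obtain ⟨e, he⟩ : ∃ e : ℝ, e = n - x := ⟨_, rfl⟩
  have hxe : x = n - e := by rw [he]; ring
  have he0 : 0 < e := by rw [he]; linarith
  rw [← he] at hV ht
  rw [hxe]
  rcases Nat.even_or_odd' n with ⟨k, rfl | rfl⟩
  · have hk : 1 ≤ k := by omega
    rw [T_even]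
    rcases lt_or_ge (f ((2 * k : ℕ) - e)) k with h1 | h1
    · left
      refine ⟨h1, (Pool.Agent.Y296.CB.V_even k hk he0.le ht h1.le).trans ?_⟩
      have : A * ((2 * k : ℕ) : ℝ) = 2 * (A * k) := by push_cast; ring
      rw [this] at hV
      linarith
    · right
      exact ⟨h1, Pool.Agent.Y296.CB.even_over k hk he0.le ht h1⟩
  · left
    rw [T_odd]
    have h1 := Pool.Agent.Y296.CB.V_odd k he0.le
    have h2 := (Pool.Agent.Y296.CB.odd_step' k he0.le).1
    have hA : 0 ≤ A := by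
      have hV0 := Pool.Agent.Y296.CB.V_nonneg (2 * k + 1) he0.le
      by_contra hcon
      push Not at hcon
      have : (0 : ℝ) < ((2 * k + 1 : ℕ) : ℝ) := by positivity
      nlinarith
    refine ⟨?_, ?_⟩
    · push_cast at h2 ⊢; linarith
    · have e1 : (((3 * k + 2 : ℕ) : ℝ)) = 3 * (k : ℝ) + 2 := by push_cast; ring
      rw [e1]
      refine h1.trans ?_
      have e2 : A * ((2 * k + 1 : ℕ) : ℝ) = A * (2 * k + 1) := by push_cast; ring
      rw [e2] at hV
      nlinarith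

/-- **following from just below** -/
theorem low_follow {n K : ℕ} (hn : 1 ≤ n) {lam η : ℝ} (hl : 1 ≤ lam) (hle : η * lam ^ 2 ≤ 1 / 6)
    (hT : ∀ k ≤ K, ((T^[k] n : ℕ) : ℝ) ≤ lam * n) {x : ℝ} (hx : x < n) (ht : - dev n x ≤ η) :
    ∀ k ≤ K, (Below ((n - x) / n) (T^[k] n) (f^[k] x) ∧ Z (T^[k] n) (f^[k] x)) ∨ Trap (T^[k] n) (f^[k] x) := by
  have hnR : (1 : ℝ) ≤ n := by exact_mod_cast hn
  have hA : 0 < (n - x) / n := div_pos (by linarith) (by linarith)
  -- bound on the scaled deviation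
  have key : ∀ k ≤ K, Below ((n - x) / n) (T^[k] n) (f^[k] x) → Z (T^[k] n) (f^[k] x) := by
    intro k hk hB
    obtain ⟨h1, h2⟩ := hB
    refine ⟨h1.le, ?_⟩
    obtain ⟨q, hq⟩ : ∃ q : ℝ, q = ((T^[k] n : ℕ) : ℝ) := ⟨_, rfl⟩
    obtain ⟨e, he⟩ : ∃ e : ℝ, e = ((T^[k] n : ℕ) : ℝ) - f^[k] x := ⟨_, rfl⟩
    have hq0 : 0 ≤ q := by rw [hq]; positivity
    have hql : q ≤ lam * n := by rw [hq]; exact hT k hk
    rw [← he] at h2 ⊢
    rw [← hq] at h2
    have he0 : 0 ≤ e := by rw [he]; linarith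
    obtain ⟨t, htd⟩ : ∃ t : ℝ, t = ts (T^[k] n) e := ⟨_, rfl⟩
    have ht0 : 0 ≤ t := by rw [htd]; exact Pool.Agent.Y296.CB.ts_nonneg _ he0
    have h3 : π ^ 2 * (2 * q + 1) / 4 * V (T^[k] n) e = t / (1 + 4 / 15 * t) := by
      unfold V
      rw [← htd, ← mul_div_assoc, htd]
      unfold ts
      rw [hq]
    have h4 : π ^ 2 * (2 * q + 1) / 4 * V (T^[k] n) e ≤ π ^ 2 * (2 * q + 1) / 4 * ((n - x) / n * q) :=
      mul_le_mul_of_nonneg_left h2 (by positivity)
    have h5 : π ^ 2 * (2 * q + 1) / 4 * ((n - x) / n * q) ≤ 1 / 6 := by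
      have e1 : - dev n x = π ^ 2 * (2 * (n : ℝ) + 1) / 4 * (n - x) := by unfold dev; ring
      have h6 : 2 * q + 1 ≤ lam * (2 * n + 1) := by nlinarith
      have h7 : (n - x) / n * q ≤ (n - x) * lam := by
        rw [div_mul_eq_mul_div, div_le_iff₀ (by linarith)]
        have : 0 ≤ (n : ℝ) - x := by linarith
        nlinarith
      have h8 : π ^ 2 * (2 * q + 1) / 4 * ((n - x) / n * q) ≤ π ^ 2 * (lam * (2 * n + 1)) / 4 * ((n - x) * lam) := by
        apply mul_le_mul _ h7 (by positivity) (by positivity)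
        have : π ^ 2 * (2 * q + 1) ≤ π ^ 2 * (lam * (2 * n + 1)) := mul_le_mul_of_nonneg_left h6 (by positivity)
        linarith
      refine h8.trans ?_
      have e2 : π ^ 2 * (lam * (2 * n + 1)) / 4 * ((n - x) * lam) = lam ^ 2 * (- dev n x) := by rw [e1]; ring
      rw [e2]
      have := mul_le_mul_of_nonneg_left ht (by positivity : 0 ≤ lam ^ 2)
      linarith
    rw [← htd]
    have h6 : t / (1 + 4 / 15 * t) ≤ 1 / 6 := by rw [← h3]; exact h4.trans h5
    rw [div_le_iff₀ (by positivity)] at h6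
    linarith
  intro k
  induction k with
  | zero =>
    intro hk
    have h0 : Below ((n - x) / n) n x := by
      refine ⟨hx, (Pool.Agent.Y296.CB.V_le n (by linarith)).trans ?_⟩
      rw [div_mul_cancel₀ _ (by linarith : (n : ℝ) ≠ 0)]
    exact Or.inl ⟨h0, key 0 hk h0⟩
  | succ k ih =>
    intro hk
    rcases ih (by omega) with ⟨h1, h2⟩ | h1
    · rcases below_step (T_iter_pos hn k) h1 h2.2 with h3 | h3
      · left
        have h4 : Below ((n - x) / n) (T^[k + 1] n) (f^[k + 1] x) := by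
          rw [Function.iterate_succ_apply', Function.iterate_succ_apply']; exact h3
        exact ⟨h4, key _ hk h4⟩
      · right
        rw [Function.iterate_succ_apply', Function.iterate_succ_apply']; exact h3
    · right
      rw [Function.iterate_succ_apply', Function.iterate_succ_apply']
      exact trap (T_iter_pos hn k) h1

/-- following, with structure -/
theorem good_follow {n K : ℕ} (hn : 1 ≤ n) {lam η : ℝ} (hl : 1 ≤ lam) (hle : η * lam ^ 2 ≤ 1 / 6)
    (hT : ∀ k ≤ K, ((T^[k] n : ℕ) : ℝ) ≤ lam * n) {x : ℝ} (h1 : -η ≤ dev n x) (h2 : dev n x ≤ 2.05) :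
    ∀ k ≤ K, Z (T^[k] n) (f^[k] x) ∨ Trap (T^[k] n) (f^[k] x) := by
  intro k hk
  rcases lt_or_ge (dev n x) 0 with h0 | h0
  · have hx : x < n := by
      by_contra hcon
      push Not at hcon
      have : 0 ≤ dev n x := by
        unfold dev
        exact mul_nonneg (by positivity) (by linarith)
      linarith
    rcases low_follow hn hl hle hT hx (by linarith) k hk with h | h
    · exact Or.inl h.2
    · exact Or.inr h
  · exact Or.inr (shadow hn (trap_of_dev h0 h2) k)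

/-- the fate -/
theorem fate_struct {a : ℝ} (ha : a ∈ Set.Icc (1.19 : ℝ) 1.196) (hga : g a = a) {n : ℕ} (hn : 1 ≤ n)
    {x : ℝ} (h1 : ∃ k, T^[k] n = 1) (h : ∀ k, Z (T^[k] n) (f^[k] x) ∨ Trap (T^[k] n) (f^[k] x)) :
    Fate a x := by
  obtain ⟨k, hk⟩ := h1
  by_cases hK : ∃ K, Trap (T^[K] n) (f^[K] x)
  · obtain ⟨K, hK⟩ := hK
    have h2 : T^[k + K] (T^[K] n) = 1 := by
      rw [← Function.iterate_add_apply, show k + K + K = 2 * K + k by ring, Function.iterate_add_apply,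
        hk, T_iter_one]
    exact Pool.Agent.Y296.CB.fate_of_iter (K := K) (conv_reach ha hga (T_iter_pos hn K) h2 hK)
  · push Not at hK
    have hall : ∀ k, Z (T^[k] n) (f^[k] x) := fun k => (h k).resolve_right (hK k)
    have h3 : ∀ i, Z (T^[i] 1) (f^[i] (f^[k] x)) := by
      intro i
      have := hall (i + k)
      rw [Function.iterate_add_apply, Function.iterate_add_apply f, hk] at this
      exact this
    exact Pool.Agent.Y296.CB.fate_of_iter (K := k) (Or.inl (Pool.Agent.Y296.CB.conv_below h3))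

/-! ### Escape of the limit system -/

theorem grow_st {n : ℕ} {z R : ℝ} (hR : 5 ≤ R) (h : R < |z|) : R < |st n z| := by
  unfold st
  split_ifs
  · exact grow_E hR h
  · exact lt_trans (by linarith) (grow_O hR h)

theorem grow_Zc {n K : ℕ} {z R : ℝ} (hR : 5 ≤ R) (h : R < |z|) : R < |Zc K n z| := by
  induction K with
  | zero => exact h
  | succ K ih => rw [Zc_succ']; exact grow_st hR ih

theorem grow_pos {n : ℕ} {z R : ℝ} (hR : 5 ≤ R) (h : R < z) : 3 / 2 * R < |st n z| := by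
  have h0 : R < |z| := lt_of_lt_of_le h (le_abs_self z)
  unfold st
  split_ifs
  · unfold E
    rw [abs_of_nonneg (by nlinarith)]
    nlinarith
  · exact grow_O hR h0

theorem grow2 {n : ℕ} {z R : ℝ} (hR : 5 ≤ R) (h : R < |z|) : 3 / 2 * R < |Zc 2 n z| := by
  have e : Zc 2 n z = st (T n) (st n z) := rfl
  rw [e]
  by_cases hp : 0 ≤ st n z ∧ n % 2 = 0
  · have h1 := grow_st (n := n) hR h
    rw [abs_of_nonneg hp.1] at h1
    exact grow_pos hR h1
  · have h1 : 3 / 2 * R < |st n z| := by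
      by_cases h2 : n % 2 = 0
      · exfalso
        apply hp
        refine ⟨?_, h2⟩
        unfold st; rw [if_pos h2]; unfold E
        rcases le_total 0 z with h3 | h3
        · positivity
        · rw [abs_of_nonpos h3] at h; nlinarith
      · unfold st; rw [if_neg h2]; exact grow_O hR h
    exact grow_st (by linarith) h1

theorem grow8 {n : ℕ} {z : ℝ} (h : 5 < |z|) : 21 < |Zc 8 n z| := by
  have h1 := grow2 (n := n) le_rfl h
  have h2 := grow2 (n := T^[2] n) (by norm_num) h1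
  have h3 := grow2 (n := T^[2] (T^[2] n)) (by norm_num) h2
  have h4 := grow2 (n := T^[2] (T^[2] (T^[2] n))) (by norm_num) h3
  have e : Zc 8 n z = Zc 2 (T^[2] (T^[2] (T^[2] n))) (Zc 2 (T^[2] (T^[2] n)) (Zc 2 (T^[2] n) (Zc 2 n z))) := rfl
  rw [e]
  exact lt_trans (by norm_num) h4

/-! ### Macroscopic departure -/

theorem u_lower {d : ℝ} (hd : |d| ≤ 1 / 10) : 0.99 * ((π * d) ^ 2 / 2) ≤ 1 - Real.cos (π * d) := by
  obtain ⟨-, -, h⟩ := one_sub_cos (π * d)
  have hp := pi_sq_lt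
  have h1 : (π * d) ^ 2 ≤ 0.1 := by
    rw [mul_pow, ← sq_abs d]
    have h2 : |d| ^ 2 ≤ 0.01 := by
      have := abs_nonneg d
      nlinarith
    have h3 : 0 ≤ |d| ^ 2 := by positivity
    nlinarith
  have h2 := (abs_le.1 h).1
  have h3 : 0 ≤ (π * d) ^ 2 := by positivity
  nlinarith

theorem big_step {n : ℕ} {x : ℝ} (h1 : |x - n| ≤ 1 / 10) (h2 : 20 ≤ |dev n x|) :
    8 * |x - n| ≤ |f x - (T n : ℕ)| := by
  obtain ⟨d, hd⟩ : ∃ d : ℝ, d = x - n := ⟨_, rfl⟩
  have hx : x = n + d := by rw [hd]; ring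
  rw [← hd] at h1 ⊢
  have hu := u_lower h1
  obtain ⟨hu0, hu1, -⟩ := one_sub_cos (π * d)
  obtain ⟨u, hud⟩ : ∃ u : ℝ, u = 1 - Real.cos (π * d) := ⟨_, rfl⟩
  rw [← hud] at hu hu0 hu1
  have hp := pi_sq_lt
  have hd0 := abs_nonneg d
  have hd2 : |d| ^ 2 ≤ 0.01 := by nlinarith
  have hu3 : u ≤ 0.05 := by
    refine hu1.trans ?_
    rw [mul_pow, ← sq_abs d]
    nlinarith
  have hdev : |dev n x| = π ^ 2 * (2 * (n : ℝ) + 1) / 4 * |d| := by
    unfold dev
    rw [← hd, abs_mul, abs_of_nonneg (by positivity)]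
  rw [hdev] at h2
  -- main term
  have hmain : 9.9 * |d| ≤ (2 * (n : ℝ) + 1) / 4 * u := by
    have h3 : (2 * (n : ℝ) + 1) / 4 * (0.99 * ((π * d) ^ 2 / 2)) ≤ (2 * (n : ℝ) + 1) / 4 * u :=
      mul_le_mul_of_nonneg_left hu (by positivity)
    have h4 : (2 * (n : ℝ) + 1) / 4 * (0.99 * ((π * d) ^ 2 / 2))
        = 0.495 * |d| * (π ^ 2 * (2 * (n : ℝ) + 1) / 4 * |d|) := by
      rw [mul_pow, ← sq_abs d]; ring
    rw [h4] at h3
    have h5 := mul_le_mul_of_nonneg_left h2 (by positivity : 0 ≤ 0.495 * |d|)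
    linarith
  have hdl := neg_abs_le d
  have hdu := le_abs_self d
  have hc : Real.cos (π * d) = 1 - u := by rw [hud]; ring
  rcases Nat.even_or_odd' n with ⟨m, rfl | rfl⟩
  · have hf := f_even m d
    rw [← hx, hc] at hf
    rw [T_even, hf]
    have e : (m : ℝ) + ((4 * m + 1) / 4 * (1 - (1 - u)) + d * (1 - (1 - u) / 2)) - (m : ℕ)
        = (2 * ((2 * m : ℕ) : ℝ) + 1) / 4 * u + d * (1 / 2 + u / 2) := by push_cast; ring
    rw [e]
    refine le_trans ?_ (le_abs_self _)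
    have h6 : -(|d| * 0.53) ≤ d * (1 / 2 + u / 2) := by
      have h7 : |d * (1 / 2 + u / 2)| ≤ |d| * 0.53 := by
        rw [abs_mul, abs_of_nonneg (by positivity : (0 : ℝ) ≤ 1 / 2 + u / 2)]
        exact mul_le_mul_of_nonneg_left (by linarith) hd0
      linarith [(abs_le.1 h7).1]
    linarith
  · have hf := f_odd m d
    rw [← hx, hc] at hf
    rw [T_odd, hf]
    have e : (3 * m + 2 : ℝ) + (d * (1 + (1 - u) / 2) - (4 * m + 3) / 4 * (1 - (1 - u))) - ((3 * m + 2 : ℕ) : ℝ)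
        = -((2 * ((2 * m + 1 : ℕ) : ℝ) + 1) / 4 * u - d * (3 / 2 - u / 2)) := by push_cast; ring
    rw [e, abs_neg]
    refine le_trans ?_ (le_abs_self _)
    have h6 : d * (3 / 2 - u / 2) ≤ |d| * 1.5 := by
      have h7 : |d * (3 / 2 - u / 2)| ≤ |d| * 1.5 := by
        rw [abs_mul, abs_of_nonneg (by linarith : (0 : ℝ) ≤ 3 / 2 - u / 2)]
        exact mul_le_mul_of_nonneg_left (by linarith) hd0
      linarith [(abs_le.1 h7).2]
    linarith

theorem T_ge' (n : ℕ) : n + 1 ≤ 2 * T n + 1 := by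
  have := T_ge n
  omega

theorem big_dev {n : ℕ} {x : ℝ} (h1 : |x - n| ≤ 1 / 10) (h2 : 20 ≤ |dev n x|) : 20 ≤ |dev (T n) (f x)| := by
  have h3 := big_step h1 h2
  have hdev : |dev n x| = π ^ 2 * (2 * (n : ℝ) + 1) / 4 * |x - n| := by
    unfold dev
    rw [abs_mul, abs_of_nonneg (by positivity)]
  have hdev' : |dev (T n) (f x)| = π ^ 2 * (2 * ((T n : ℕ) : ℝ) + 1) / 4 * |f x - (T n : ℕ)| := by
    unfold dev
    rw [abs_mul, abs_of_nonneg (by positivity)]
  rw [hdev'] 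
  rw [hdev] at h2
  have h4 : (2 * (n : ℝ) + 1) / 2 ≤ 2 * ((T n : ℕ) : ℝ) + 1 := by
    have : ((n + 1 : ℕ) : ℝ) ≤ ((2 * T n + 1 : ℕ) : ℝ) := by exact_mod_cast T_ge' n
    push_cast at this
    linarith
  have h5 : π ^ 2 * ((2 * (n : ℝ) + 1) / 2) / 4 * (8 * |x - n|)
      ≤ π ^ 2 * (2 * ((T n : ℕ) : ℝ) + 1) / 4 * |f x - (T n : ℕ)| := by
    apply mul_le_mul _ h3 (by positivity) (by positivity)
    have := mul_le_mul_of_nonneg_left h4 (by positivity : 0 ≤ π ^ 2)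
    linarith
  refine le_trans ?_ h5
  have e : π ^ 2 * ((2 * (n : ℝ) + 1) / 2) / 4 * (8 * |x - n|) = 4 * (π ^ 2 * (2 * (n : ℝ) + 1) / 4 * |x - n|) := by
    ring
  rw [e]; linarith

theorem T_iter_ge (k n : ℕ) : n ≤ 2 ^ k * T^[k] n := by
  induction k with
  | zero => simp
  | succ k ih =>
    rw [Function.iterate_succ_apply']
    have h1 := T_ge (T^[k] n)
    calc n ≤ 2 ^ k * T^[k] n := ih
      _ ≤ 2 ^ k * (2 * T (T^[k] n)) := Nat.mul_le_mul_left _ h1
      _ = 2 ^ (k + 1) * T (T^[k] n) := by ring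

/-- **macroscopic departure** -/
theorem depart {n : ℕ} (hn : 1 ≤ n) {x : ℝ} (h : 20 ≤ |dev n x|) :
    ∃ k, 8 ^ k ≤ 8 * n ∧ 1 / 10 < |f^[k] x - (T^[k] n : ℕ)| := by
  classical
  by_contra hcon
  push Not at hcon
  -- all times `k` with `8 ^ k ≤ 8 n` stay within `1/10`
  have hnR : (1 : ℝ) ≤ n := by exact_mod_cast hn
  have hstart : 4 / (n : ℝ) * (1 / 2) < |x - n| := by
    have hp := pi_sq_lt
    have hdev : |dev n x| = π ^ 2 * (2 * (n : ℝ) + 1) / 4 * |x - n| := by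
      unfold dev
      rw [abs_mul, abs_of_nonneg (by positivity)]
    rw [hdev] at h
    have h0 := abs_nonneg (x - (n : ℝ))
    rw [div_mul_eq_mul_div, div_lt_iff₀ (by linarith)]
    by_contra hc
    push Not at hc
    have h3 : (2 * (n : ℝ) + 1) * |x - n| ≤ 3 * (|x - n| * n) := by nlinarith
    have h4 : 0 ≤ (2 * (n : ℝ) + 1) * |x - n| := by positivity
    nlinarith
  have key : ∀ k, 8 ^ k ≤ 8 * n → 20 ≤ |dev (T^[k] n) (f^[k] x)| ∧ 8 ^ k * |x - n| ≤ |f^[k] x - (T^[k] n : ℕ)| := by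
    intro k
    induction k with
    | zero => intro _; exact ⟨h, by simp⟩
    | succ k ih =>
      intro hk
      have hk' : 8 ^ k ≤ 8 * n := (Nat.pow_le_pow_right (by norm_num) (Nat.le_succ k)).trans hk
      obtain ⟨h1, h2⟩ := ih hk'
      have h3 := hcon k hk'
      rw [Function.iterate_succ_apply', Function.iterate_succ_apply']
      refine ⟨big_dev h3 h1, ?_⟩
      have h4 := big_step h3 h1
      have : (8 : ℝ) ^ (k + 1) * |x - n| = 8 * (8 ^ k * |x - n|) := by ring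
      rw [this]; linarith
  -- choose the largest `k`
  obtain ⟨k, hk1, hk2⟩ : ∃ k, 8 ^ k ≤ 8 * n ∧ 8 * n < 8 ^ (k + 1) := by
    refine ⟨Nat.log 8 (8 * n), Nat.pow_log_le_self 8 (by omega), Nat.lt_pow_succ_log_self (by norm_num) _⟩
  have h5 := (key k hk1).2
  have h6 := hcon k hk1
  have h7 : (n : ℝ) < 8 ^ k := by
    have : 8 * n < 8 * 8 ^ k := by rw [pow_succ] at hk2; linarith
    have h8 : n < 8 ^ k := by omega
    exact_mod_cast h8
  have h9 : (n : ℝ) * (4 / n * (1 / 2)) < 8 ^ k * |x - n| := by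
    apply mul_lt_mul'' h7 hstart (by linarith) (by positivity)
  have h10 : (n : ℝ) * (4 / n * (1 / 2)) = 2 := by field_simp; norm_num
  linarith

/-- leaving the orbit of `n` by `1/10` while the orbit is at least `√n` -/
def Leaves (n : ℕ) (x : ℝ) : Prop := ∃ k, n ≤ (T^[k] n) ^ 2 ∧ 1 / 10 < |f^[k] x - (T^[k] n : ℕ)|

theorem leaves_of_big {J : ℕ} : ∃ N : ℕ, ∀ n, N ≤ n → ∀ x : ℝ, 20 ≤ |dev (T^[J] n) (f^[J] x)| → Leaves n x := by
  refine ⟨max 1 (64 * 16 ^ J), fun n hn x h => ?_⟩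
  have hn1 : 1 ≤ n := (le_max_left _ _).trans hn
  have hn2 : 64 * 16 ^ J ≤ n := (le_max_right _ _).trans hn
  obtain ⟨k, hk1, hk2⟩ := depart (T_iter_pos hn1 J) h
  refine ⟨k + J, ?_, ?_⟩
  · rw [Function.iterate_add_apply]
    obtain ⟨m, hm⟩ : ∃ m, m = T^[J] n := ⟨_, rfl⟩
    obtain ⟨q, hq⟩ : ∃ q, q = T^[k] m := ⟨_, rfl⟩
    rw [← hm] at hk1 ⊢
    rw [← hq]
    have h1 : n ≤ 2 ^ J * m := by rw [hm]; exact T_iter_ge J n
    have h2 : m ≤ 2 ^ k * q := by rw [hq]; exact T_iter_ge k m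
    -- `m ^ 2 ≤ 8 q ^ 3`
    have hm1 : 1 ≤ m := by rw [hm]; exact T_iter_pos hn1 J
    have h3 : m ^ 3 ≤ 8 * m * q ^ 3 := by
      calc m ^ 3 ≤ (2 ^ k * q) ^ 3 := Nat.pow_le_pow_left h2 3
        _ = 8 ^ k * q ^ 3 := by
          rw [mul_pow, ← pow_mul, mul_comm k 3, pow_mul]; norm_num
        _ ≤ 8 * m * q ^ 3 := Nat.mul_le_mul_right _ hk1
    have h4 : m ^ 2 ≤ 8 * q ^ 3 := by
      have : m * m ^ 2 ≤ m * (8 * q ^ 3) := by
        calc m * m ^ 2 = m ^ 3 := by ring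
          _ ≤ 8 * m * q ^ 3 := h3
          _ = m * (8 * q ^ 3) := by ring
      exact Nat.le_of_mul_le_mul_left this (by omega)
    -- `n ^ 4 ≤ 16 ^ J m ^ 4 ≤ 64 * 16 ^ J q ^ 6`
    have h5 : n ^ 4 ≤ 64 * 16 ^ J * q ^ 6 := by
      calc n ^ 4 ≤ (2 ^ J * m) ^ 4 := Nat.pow_le_pow_left h1 4
        _ = 16 ^ J * (m ^ 2) ^ 2 := by
          rw [mul_pow, ← pow_mul, mul_comm J 4, pow_mul]; ring
        _ ≤ 16 ^ J * (8 * q ^ 3) ^ 2 := Nat.mul_le_mul_left _ (Nat.pow_le_pow_left h4 2)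
        _ = 64 * 16 ^ J * q ^ 6 := by ring
    have h6 : n ^ 3 ≤ (q ^ 2) ^ 3 := by
      have : n * n ^ 3 ≤ n * (q ^ 2) ^ 3 := by
        calc n * n ^ 3 = n ^ 4 := by ring
          _ ≤ 64 * 16 ^ J * q ^ 6 := h5
          _ ≤ n * q ^ 6 := Nat.mul_le_mul_right _ hn2
          _ = n * (q ^ 2) ^ 3 := by ring
      exact Nat.le_of_mul_le_mul_left this (by omega)
    exact (Nat.pow_le_pow_iff_left (by norm_num)).1 h6
  · rw [Function.iterate_add_apply, Function.iterate_add_apply T]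
    exact hk2

theorem not_both {n : ℕ} (hn : 101 ≤ n) {x : ℝ} (h : ∀ k, Near (T^[k] n) (f^[k] x)) : ¬ Leaves n x := by
  rintro ⟨k, h1, h2⟩
  have h3 := h k
  unfold Near at h3
  have h4 : (1 : ℝ) / 10 < 11 / (5 * (2 * ((T^[k] n : ℕ) : ℝ) + 1)) := lt_of_lt_of_le h2 h3
  rw [div_lt_div_iff₀ (by norm_num) (by positivity)] at h4
  have h5 : ((T^[k] n : ℕ) : ℝ) < 11 := by linarith
  have h6 : T^[k] n < 11 := by exact_mod_cast h5
  nlinarith

end Pool.Agent.W2helper41.CH
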