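import Pool.Agent.W2helper41.CH.Law

/-!
The law for sequences of points with convergent scaled deviations.
-/

set_option autoImplicit false

namespace Pool.Agent.W2helper41.CH

open Finset Filter Topology
open Pool.Agent.H934R2.Ch (T f T_even T_odd T_iter_pos AttrPt Attracts Known b)
open Pool.Agent.H499R2.ND (Dn cnt Tn Bdd cnt_mono cnt_or zd_iff zd_bdd)
open Pool.Agent.Y296.CB (ts V Below Trap Z Fate attracts_iter)

/-- the initial state -/
noncomputable def z0 (a b : ℝ) (n : ℕ) : ℝ := if n % 2 = 0 then a else b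

/-- convergence of the scaled deviations along the even and along the odd integers -/
def Conv (x : ℕ → ℝ) (a b : ℝ) : Prop :=
  Tendsto (fun m : ℕ => dev (2 * m) (x (2 * m))) atTop (𝓝 a) ∧
  Tendsto (fun m : ℕ => dev (2 * m + 1) (x (2 * m + 1))) atTop (𝓝 b)

theorem conv_close {x : ℕ → ℝ} {a b : ℝ} (h : Conv x a b) {δ : ℝ} (hδ : 0 < δ) :
    ∃ N : ℕ, ∀ n, N ≤ n → |dev n (x n) - z0 a b n| ≤ δ := by
  obtain ⟨N1, h1⟩ := Metric.tendsto_atTop.1 h.1 δ hδ
  obtain ⟨N2, h2⟩ := Metric.tendsto_atTop.1 h.2 δ hδ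
  refine ⟨2 * (N1 + N2) + 2, fun n hn => ?_⟩
  unfold z0
  rcases Nat.even_or_odd' n with ⟨m, rfl | rfl⟩
  · rw [if_pos (by omega)]
    have := h1 m (by omega)
    rw [Real.dist_eq] at this
    exact this.le
  · rw [if_neg (by omega)]
    have := h2 m (by omega)
    rw [Real.dist_eq] at this
    exact this.le

theorem z0_bound (a b : ℝ) (n : ℕ) : |z0 a b n| ≤ max 1 (max |a| |b|) := by
  unfold z0
  split_ifs
  · exact (le_max_left _ _).trans (le_max_right _ _)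
  · exact (le_max_right _ _).trans (le_max_right _ _)

theorem Zf_eq (a b : ℝ) (J n : ℕ) : Zf a b J n = Zc (J + 1) n (z0 a b n) := rfl

/-- the orbit is close to the state for a fixed number of steps -/
theorem conv_states {x : ℕ → ℝ} {a b : ℝ} (h : Conv x a b) (K : ℕ) {ε : ℝ} (hε : 0 < ε) :
    ∃ N : ℕ, ∀ n, N ≤ n → ∀ k ≤ K, |dev (T^[k] n) (f^[k] (x n)) - Zc k n (z0 a b n)| ≤ ε := by
  obtain ⟨N1, δ, hδ, h1⟩ := locK K (max 1 (max |a| |b|)) (le_max_left _ _) ε hε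
  obtain ⟨N2, h2⟩ := conv_close h hδ
  exact ⟨max N1 N2, fun n hn => h1 n ((le_max_left _ _).trans hn) (x n) (z0 a b n) (z0_bound a b n)
    (h2 n ((le_max_right _ _).trans hn))⟩

/-- escape of the state forces a large deviation -/
theorem esc_big {x : ℕ → ℝ} {a b : ℝ} (h : Conv x a b) (J : ℕ) :
    ∃ N : ℕ, ∀ n, N ≤ n → 5 < |Zf a b J n| → 20 ≤ |dev (T^[J + 1 + 8] n) (f^[J + 1 + 8] (x n))| := by
  obtain ⟨N, h1⟩ := conv_states h (J + 1 + 8) (ε := 1) one_pos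
  refine ⟨N, fun n hn h5 => ?_⟩
  have h2 := h1 n hn (J + 1 + 8) le_rfl
  rw [Zf_eq] at h5
  have h3 := grow8 (n := T^[J + 1] n) h5
  rw [← Zc_add] at h3
  have h4 := abs_sub_abs_le_abs_sub (Zc (J + 1 + 8) n (z0 a b n)) (dev (T^[J + 1 + 8] n) (f^[J + 1 + 8] (x n)))
  rw [abs_sub_comm] at h4
  linarith

theorem esc_leaves {x : ℕ → ℝ} {a b : ℝ} (h : Conv x a b) (J : ℕ) :
    ∃ N : ℕ, ∀ n, N ≤ n → 5 < |Zf a b J n| → Leaves n (x n) := by
  obtain ⟨N1, h1⟩ := esc_big h J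
  obtain ⟨N2, h2⟩ := leaves_of_big (J := J + 1 + 8)
  exact ⟨max N1 N2, fun n hn h5 => h2 n ((le_max_right _ _).trans hn) (x n)
    (h1 n ((le_max_left _ _).trans hn) h5)⟩

/-- good states follow -/
theorem good_states {x : ℕ → ℝ} {a b : ℝ} (h : Conv x a b) (J : ℕ) {η lam : ℝ} (hη : 0 < η) (hl : 1 ≤ lam)
    (hle : η * lam ^ 2 ≤ 1 / 12) : ∃ N : ℕ, ∀ n, N ≤ n → Gd η (Zf a b J n) → ∀ K,
      (∀ k ≤ K, ((T^[k] (T^[J + 1] n) : ℕ) : ℝ) ≤ lam * (T^[J + 1] n : ℕ)) →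
      (∀ k ≤ J + 1 + K, Near (T^[k] n) (f^[k] (x n))) ∧
      (∀ k ≤ K, Z (T^[k] (T^[J + 1] n)) (f^[k] (f^[J + 1] (x n))) ∨
        Trap (T^[k] (T^[J + 1] n)) (f^[k] (f^[J + 1] (x n)))) := by
  obtain ⟨N, h1⟩ := conv_states h (J + 1) (ε := min η (1 / 20)) (by positivity)
  refine ⟨max N 1, fun n hn hg K hT => ?_⟩
  have hn1 : 1 ≤ n := (le_max_right _ _).trans hn
  have h2 := h1 n ((le_max_left _ _).trans hn)
  have hη1 : η ≤ 1 / 12 := by
    have : 1 ≤ lam ^ 2 := by nlinarith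
    nlinarith
  have hst : ∀ k ≤ K, Z (T^[k] (T^[J + 1] n)) (f^[k] (f^[J + 1] (x n))) ∨
        Trap (T^[k] (T^[J + 1] n)) (f^[k] (f^[J + 1] (x n))) := by
    have h3 := abs_le.1 (h2 (J + 1) le_rfl)
    rw [← Zf_eq] at h3
    have h4 := min_le_left η (1 / 20)
    have h5 := min_le_right η (1 / 20)
    apply good_follow (T_iter_pos hn1 _) hl (η := 2 * η) (by linarith) hT
    · linarith [hg.1, h3.1]
    · linarith [hg.2, h3.2]
  refine ⟨fun k hk => ?_, hst⟩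
  rcases Nat.lt_or_ge k (J + 1) with h3 | h3
  · apply near_of_dev
    have h4 := h2 k h3.le
    have h5 : |Zc k n (z0 a b n)| ≤ 5 := by
      by_contra hcon
      push Not at hcon
      have h6 := grow_Zc (n := T^[k] n) (K := J + 1 - k) le_rfl hcon
      rw [← Zc_add, Nat.add_sub_cancel' h3.le, ← Zf_eq] at h6
      have h7 : |Zf a b J n| ≤ 2 := by
        rw [abs_le]
        constructor
        · linarith [hg.1]
        · exact hg.2
      linarith
    have h6 : |dev (T^[k] n) (f^[k] (x n))| ≤ |dev (T^[k] n) (f^[k] (x n)) - Zc k n (z0 a b n)| + |Zc k n (z0 a b n)| := by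
      have := abs_add_le (dev (T^[k] n) (f^[k] (x n)) - Zc k n (z0 a b n)) (Zc k n (z0 a b n))
      rwa [sub_add_cancel] at this
    have h7 := min_le_right η (1 / 20)
    linarith
  · obtain ⟨i, rfl⟩ : ∃ i, k = i + (J + 1) := ⟨k - (J + 1), by omega⟩
    rw [Function.iterate_add_apply, Function.iterate_add_apply f]
    rcases hst i (by omega) with h4 | h4
    · exact near_of_Z h4
    · exact near_of_trap h4

/-- the attracting cycles which may attract, and the fate over the integers which reach `1` -/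
def OnlyK (a0 : ℝ) (n : ℕ) (x : ℝ) : Prop :=
  (∀ y, AttrPt y → Attracts y x → Known a0 y ∨ ∃ m : ℕ, 3 ≤ m ∧ (∃ k, T^[k] n = m) ∧
    T^[Function.minimalPeriod f y] m = m ∧ (m : ℝ) ≤ y ∧ y ≤ m + b m) ∧
  ((∃ k, T^[k] n = 1) → Fate a0 x)

theorem attr_struct {a : ℝ} (ha : a ∈ Set.Icc (1.19 : ℝ) 1.196) (hga : Pool.Agent.H934R2.Ch.g a = a) {n : ℕ}
    (hn : 1 ≤ n) {x : ℝ} (h : ∀ k, Z (T^[k] n) (f^[k] x) ∨ Trap (T^[k] n) (f^[k] x)) {y : ℝ} (hy : AttrPt y)
    (hatt : Attracts y x) : Known a y ∨ ∃ m : ℕ, 3 ≤ m ∧ (∃ k, T^[k] n = m) ∧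
      T^[Function.minimalPeriod f y] m = m ∧ (m : ℝ) ≤ y ∧ y ≤ m + b m := by
  have key : ∃ m : ℕ, 1 ≤ m ∧ y ∈ Set.Icc (m : ℝ) (m + b m) ∧ (∃ i, T^[i] n = m) ∧
      T^[Function.minimalPeriod f y] m = m := by
    by_cases hK : ∃ K, Trap (T^[K] n) (f^[K] x)
    · obtain ⟨K, hK⟩ := hK
      obtain ⟨m, h1, h2, h3, h4⟩ := Pool.Agent.H934R2.Ch.attracts_D (T_iter_pos hn K) hK hy.2.1
        (attracts_iter hy.2.1 hatt K)
      obtain ⟨i, -, hi⟩ := h3 0
      exact ⟨m, h1, h2, ⟨i + K, by rw [Function.iterate_add_apply]; exact hi⟩, h4⟩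
    · push Not at hK
      have hall : ∀ k, Z (T^[k] n) (f^[k] x) := fun k => (h k).resolve_right (hK k)
      obtain ⟨m, h1, h2, h3, h4⟩ := Pool.Agent.Y296.CB.attracts_Z (n := n) hn (x := x) hall hy.2.1 hatt
      obtain ⟨i, -, hi⟩ := h3 0
      refine ⟨m, h1, ?_, ⟨i, hi⟩, h4⟩
      rw [h2]
      exact ⟨le_rfl, by linarith [Pool.Agent.H934R2.Ch.b_pos m]⟩
  obtain ⟨m, h1, h2, h3, h4⟩ := key
  rcases Nat.lt_or_ge m 3 with h5 | h5
  · left; exact Pool.Agent.H934R2.Ch.known_of_le_two ha hga hy h1 (by omega) h2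
  · right; exact ⟨m, h5, h3, h4, h2.1, h2.2⟩

/-- the points which follow, with a known fate -/
def FolFate (a0 : ℝ) (n : ℕ) (x : ℝ) : Prop :=
  (∀ k, Near (T^[k] n) (f^[k] x)) ∧ OnlyK a0 n x

theorem reach_iter {n k : ℕ} (h : T^[k] n = 1) (J : ℕ) : ∃ i, T^[i] (T^[J] n) = 1 := by
  refine ⟨k + J, ?_⟩
  rw [← Function.iterate_add_apply, show k + J + J = 2 * J + k by ring, Function.iterate_add_apply, h,
    Pool.Agent.H934R2.Ch.T_iter_one]

/-- **the law of the following points** -/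
theorem seq_follow {P : ℕ → Prop} {d : ℝ} (hP : ∀ n, P n ↔ P (Tn n)) (hPB : ∀ n, P n → Bdd n) (hd : Dn P d)
    {x : ℕ → ℝ} {a b : ℝ} (h : Conv x a b) :
    Dn (fun n => P n ∧ ∀ k, Near (T^[k] n) (f^[k] (x n))) (d * (1 - hh a b)) := by
  refine law hP hPB hd a b (Q := fun n => ∀ k, Near (T^[k] n) (f^[k] (x n))) (fun J => ?_)
    (fun J η lam hη hl hle => ?_)
  · obtain ⟨N, h1⟩ := esc_leaves h J
    exact ⟨max N 101, fun n hn h5 h6 => not_both ((le_max_right _ _).trans hn) h6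
      (h1 n ((le_max_left _ _).trans hn) h5)⟩
  · obtain ⟨N, h1⟩ := good_states h J hη hl hle
    exact ⟨N, fun n hn hg hT k => (h1 n hn hg k (fun i _ => hT i)).1 k (by omega)⟩

/-- the same with the fate -/
theorem seq_fate {a0 : ℝ} (ha : a0 ∈ Set.Icc (1.19 : ℝ) 1.196) (hga : Pool.Agent.H934R2.Ch.g a0 = a0)
    {P : ℕ → Prop} {d : ℝ} (hP : ∀ n, P n ↔ P (Tn n)) (hPB : ∀ n, P n → Bdd n) (hd : Dn P d)
    {x : ℕ → ℝ} {a b : ℝ} (h : Conv x a b) :
    Dn (fun n => P n ∧ FolFate a0 n (x n)) (d * (1 - hh a b)) := by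
  refine law hP hPB hd a b (Q := fun n => FolFate a0 n (x n)) (fun J => ?_) (fun J η lam hη hl hle => ?_)
  · obtain ⟨N, h1⟩ := esc_leaves h J
    exact ⟨max N 101, fun n hn h5 h6 => not_both ((le_max_right _ _).trans hn) h6.1
      (h1 n ((le_max_left _ _).trans hn) h5)⟩
  · obtain ⟨N, h1⟩ := good_states h J hη hl hle
    refine ⟨max N 1, fun n hn hg hT => ?_⟩
    have hn1 : 1 ≤ n := (le_max_right _ _).trans hn
    have hst : ∀ i, Z (T^[i] (T^[J + 1] n)) (f^[i] (f^[J + 1] (x n))) ∨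
        Trap (T^[i] (T^[J + 1] n)) (f^[i] (f^[J + 1] (x n))) := fun i =>
      (h1 n ((le_max_left _ _).trans hn) hg i (fun i _ => hT i)).2 i le_rfl
    refine ⟨fun k => (h1 n ((le_max_left _ _).trans hn) hg k (fun i _ => hT i)).1 k (by omega), ?_, ?_⟩
    · intro y hy hatt
      rcases attr_struct ha hga (T_iter_pos hn1 (J + 1)) hst hy (attracts_iter hy.2.1 hatt (J + 1)) with h2 | h2
      · exact Or.inl h2
      · obtain ⟨m, h3, ⟨k, hk⟩, h4⟩ := h2
        exact Or.inr ⟨m, h3, ⟨k + (J + 1), by rw [Function.iterate_add_apply]; exact hk⟩, h4⟩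
    · rintro ⟨k, hk⟩
      apply Pool.Agent.Y296.CB.fate_of_iter (K := J + 1)
      exact fate_struct ha hga (T_iter_pos hn1 (J + 1)) (reach_iter hk (J + 1)) hst

theorem dn_diff {P Q : ℕ → Prop} {d e : ℝ} (hP : Dn P d) (hQ : Dn (fun n => P n ∧ ¬ Q n) e) :
    Dn (fun n => P n ∧ Q n) (d - e) := by
  classical
  have h := Filter.Tendsto.sub hP hQ
  refine h.congr fun N => ?_
  have h1 : cnt P N = cnt (fun n => P n ∧ Q n) N + cnt (fun n => P n ∧ ¬ Q n) N := by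
    rw [Pool.Agent.H499R2.ND.cnt_eq, Pool.Agent.H499R2.ND.cnt_eq, Pool.Agent.H499R2.ND.cnt_eq]
    rw [← Finset.filter_filter, ← Finset.filter_filter]
    have := card_filter_add_card_filter_not (s := (Icc 1 N).filter P) Q
    exact_mod_cast this.symm
  rw [h1]; ring

/-- **the law of the leaving points** -/
theorem seq_leave {P : ℕ → Prop} {d : ℝ} (hP : ∀ n, P n ↔ P (Tn n)) (hPB : ∀ n, P n → Bdd n) (hd : Dn P d)
    {x : ℕ → ℝ} {a b : ℝ} (h : Conv x a b) :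
    Dn (fun n => P n ∧ Leaves n (x n)) (d * hh a b) := by
  have h1 : Dn (fun n => P n ∧ ¬ Leaves n (x n)) (d * (1 - hh a b)) := by
    refine law hP hPB hd a b (Q := fun n => ¬ Leaves n (x n)) (fun J => ?_) (fun J η lam hη hl hle => ?_)
    · obtain ⟨N, h1⟩ := esc_leaves h J
      exact ⟨N, fun n hn h5 h6 => h6 (h1 n hn h5)⟩
    · obtain ⟨N, h1⟩ := good_states h J hη hl hle
      exact ⟨max N 101, fun n hn hg hT => not_both ((le_max_right _ _).trans hn) fun k =>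
        (h1 n ((le_max_left _ _).trans hn) hg k (fun i _ => hT i)).1 k (by omega)⟩
  have h2 := dn_diff hd h1
  have e : d - d * (1 - hh a b) = d * hh a b := by ring
  rwa [e] at h2

end Pool.Agent.W2helper41.CH
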