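import Pool.Agent.H934R2.Ch.Basic
import Pool.Agent.W2helper41.CH.Proc

/-!
The random system is realised by the parity words of the residues modulo `2^K`.
-/

set_option autoImplicit false

namespace Pool.Agent.W2helper41.CH

open Finset Pool.Agent.H934R2.Ch

/-- one step of the state, directed by the parity of `n` -/
noncomputable def st (n : ℕ) (z : ℝ) : ℝ := if n % 2 = 0 then E z else O z

/-- the state after `K` steps -/
noncomputable def Zc : ℕ → ℕ → ℝ → ℝ
  | 0, _, z => z
  | K + 1, n, z => Zc K (T n) (st n z)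

theorem Zc_zero (n : ℕ) (z : ℝ) : Zc 0 n z = z := rfl

theorem Zc_succ (K n : ℕ) (z : ℝ) : Zc (K + 1) n z = Zc K (T n) (st n z) := rfl

theorem Zc_succ' (K n : ℕ) (z : ℝ) : Zc (K + 1) n z = st (T^[K] n) (Zc K n z) := by
  induction K generalizing n z with
  | zero => rfl
  | succ K ih =>
    rw [Zc_succ, ih, Function.iterate_succ_apply, Zc_succ]

theorem Zc_add (J L n : ℕ) (z : ℝ) : Zc (J + L) n z = Zc L (T^[J] n) (Zc J n z) := by
  induction L with
  | zero => rfl
  | succ L ih =>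
    rw [← Nat.add_assoc, Zc_succ', ih, Zc_succ', ← Function.iterate_add_apply, Nat.add_comm L J]

theorem T_shift_even {n : ℕ} (h : n % 2 = 0) (M m : ℕ) : T (n + 2 ^ (M + 1) * m) = T n + 2 ^ M * m := by
  obtain ⟨k, rfl⟩ : ∃ k, n = 2 * k := ⟨n / 2, by omega⟩
  have e : 2 * k + 2 ^ (M + 1) * m = 2 * (k + 2 ^ M * m) := by ring
  rw [e, T_even, T_even]

theorem T_shift_odd {n : ℕ} (h : n % 2 = 1) (M m : ℕ) :
    T (n + 2 ^ (M + 1) * m) = T n + 2 ^ M * (3 * m) := by
  obtain ⟨k, rfl⟩ : ∃ k, n = 2 * k + 1 := ⟨n / 2, by omega⟩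
  have e : 2 * k + 1 + 2 ^ (M + 1) * m = 2 * (k + 2 ^ M * m) + 1 := by ring
  rw [e, T_odd, T_odd]; ring

theorem par_shift (n M m : ℕ) : (n + 2 ^ (M + 1) * m) % 2 = n % 2 := by
  have : n + 2 ^ (M + 1) * m = n + 2 * (2 ^ M * m) := by ring
  omega

/-- periodicity -/
def Per {α : Type} (M : ℕ) (H : ℕ → α) : Prop := ∀ n m, H (n + 2 ^ M * m) = H n

theorem Per.mod {α : Type} {M : ℕ} {H : ℕ → α} (h : Per M H) (n : ℕ) : H (n % 2 ^ M) = H n := by
  have := h (n % 2 ^ M) (n / 2 ^ M)
  rw [Nat.mod_add_div] at this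
  exact this.symm

theorem Per.mono {α : Type} {M M' : ℕ} (hM : M ≤ M') {H : ℕ → α} (h : Per M H) : Per M' H := by
  intro n m
  have e : 2 ^ M' * m = 2 ^ M * (2 ^ (M' - M) * m) := by
    rw [← mul_assoc, ← pow_add, Nat.add_sub_cancel' hM]
  rw [e, h]

theorem Per.tt {α : Type} {M : ℕ} {H : ℕ → α} (h : Per M H) : Per (M + 1) (fun n => H (T n)) := by
  intro n m
  rcases Nat.mod_two_eq_zero_or_one n with h1 | h1
  · simp only [T_shift_even h1, h _ _]
  · simp only [T_shift_odd h1, h _ _]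

theorem Per.ti {α : Type} {M : ℕ} {H : ℕ → α} (h : Per M H) (J : ℕ) :
    Per (J + M) (fun n => H (Pool.Agent.H934R2.Ch.T^[J] n)) := by
  induction J with
  | zero => rw [Nat.zero_add]; exact h
  | succ J ih =>
    have := ih.tt
    rw [show J + 1 + M = J + M + 1 by ring]
    exact this

theorem Zc_per (K : ℕ) (g : ℕ → ℝ) (hg : Per 1 g) : Per (K + 1) (fun n => Zc K n (g n)) := by
  have key : ∀ K (z : ℝ), Per K (fun n => Zc K n z) := by
    intro K
    induction K with
    | zero => intro z n m; rfl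
    | succ K ih =>
      intro z n m
      simp only [Zc_succ]
      have hs : st (n + 2 ^ (K + 1) * m) z = st n z := by
        unfold st; rw [par_shift]
      rw [hs]
      exact (ih (st n z)).tt n m
  intro n m
  have h1 : g (n + 2 ^ (K + 1) * m) = g n := by
    have e : 2 ^ (K + 1) * m = 2 ^ 1 * (2 ^ K * m) := by ring
    rw [e, hg]
  simp only [h1]
  exact ((key K (g n)).mono (Nat.le_succ K)) n m

theorem Zc_per' (K : ℕ) (z : ℝ) : Per K (fun n => Zc K n z) := by
  induction K generalizing z with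
  | zero => intro n m; rfl
  | succ K ih =>
    intro n m
    simp only [Zc_succ]
    have hs : st (n + 2 ^ (K + 1) * m) z = st n z := by
      unfold st; rw [par_shift]
    rw [hs]
    exact (ih (st n z)).tt n m

/-- the odd branch permutes the residues -/
theorem sum_odd {M : ℕ} {H : ℕ → ℝ} (h : Per M H) :
    ∑ s ∈ range (2 ^ M), H (3 * s + 2) = ∑ s ∈ range (2 ^ M), H s := by
  have h1 : ∀ s ∈ range (2 ^ M), H (3 * s + 2) = H ((3 * s + 2) % 2 ^ M) := fun s _ => (h.mod _).symm
  rw [sum_congr rfl h1]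
  have hinj : Set.InjOn (fun s => (3 * s + 2) % 2 ^ M) (range (2 ^ M) : Finset ℕ) := by
    intro a ha b hb hab
    rw [coe_range, Set.mem_Iio] at ha hb
    have h2 : 3 * a + 2 ≡ 3 * b + 2 [MOD 2 ^ M] := hab
    have h3 : 3 * a ≡ 3 * b [MOD 2 ^ M] := Nat.ModEq.add_right_cancel' 2 h2
    have h4 : a ≡ b [MOD 2 ^ M] := by
      apply Nat.ModEq.cancel_left_of_coprime _ h3
      exact Nat.Coprime.pow_left M (by norm_num)
    have h5 : a % 2 ^ M = b % 2 ^ M := h4
    rwa [Nat.mod_eq_of_lt ha, Nat.mod_eq_of_lt hb] at h5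
  have himg : (range (2 ^ M)).image (fun s => (3 * s + 2) % 2 ^ M) = range (2 ^ M) := by
    apply eq_of_subset_of_card_le
    · intro x hx
      rw [mem_image] at hx
      obtain ⟨s, _, rfl⟩ := hx
      rw [mem_range]; exact Nat.mod_lt _ (by positivity)
    · rw [card_image_of_injOn hinj]
  have h6 := sum_image (f := H) hinj
  rw [himg] at h6
  exact h6.symm

/-- splitting by the first parity -/
theorem sum_split {M : ℕ} {H1 H2 : ℕ → ℝ} (h2 : Per M H2) :
    ∑ r ∈ range (2 ^ (M + 1)), (if r % 2 = 0 then H1 (T r) else H2 (T r))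
      = ∑ s ∈ range (2 ^ M), H1 s + ∑ s ∈ range (2 ^ M), H2 s := by
  have key : ∀ n : ℕ, ∑ r ∈ range (2 * n), (if r % 2 = 0 then H1 (T r) else H2 (T r))
      = ∑ s ∈ range n, (H1 s + H2 (3 * s + 2)) := by
    intro n
    induction n with
    | zero => simp
    | succ n ih =>
      rw [show 2 * (n + 1) = 2 * n + 1 + 1 by ring, sum_range_succ, sum_range_succ, sum_range_succ, ih]
      rw [if_pos (by omega), if_neg (by omega), T_even, T_odd]; ring
  rw [pow_succ, mul_comm (2 ^ M) 2, key, sum_add_distrib, sum_odd h2]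

theorem sum_T {M : ℕ} {H : ℕ → ℝ} (h : Per M H) :
    ∑ r ∈ range (2 ^ (M + 1)), H (T r) = 2 * ∑ s ∈ range (2 ^ M), H s := by
  have := sum_split (H1 := H) h
  simp only [ite_self] at this
  rw [this]; ring

theorem sum_Ti {L : ℕ} {G : ℕ → ℝ} (h : Per L G) (J : ℕ) :
    ∑ r ∈ range (2 ^ (J + L)), G (T^[J] r) = 2 ^ J * ∑ s ∈ range (2 ^ L), G s := by
  induction J with
  | zero => simp
  | succ J ih =>
    have h1 := sum_T (h.ti J)
    rw [show J + 1 + L = J + L + 1 by ring]
    simp only [Function.iterate_succ_apply]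
    rw [h1, ih]; ring

theorem sum_per {M : ℕ} {H : ℕ → ℝ} (h : Per M H) (L : ℕ) :
    ∑ r ∈ range (2 ^ (M + L)), H r = 2 ^ L * ∑ s ∈ range (2 ^ M), H s := by
  induction L with
  | zero => simp
  | succ L ih =>
    rw [← Nat.add_assoc, pow_succ 2 (M + L), mul_two, sum_range_add]
    have h1 : ∀ r ∈ range (2 ^ (M + L)), H (2 ^ (M + L) + r) = H r := by
      intro r _
      have e : 2 ^ (M + L) + r = r + 2 ^ M * 2 ^ L := by rw [pow_add]; ring
      rw [e, h]
    rw [sum_congr rfl h1, ih]; ring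

/-- the mean over the residues -/
theorem sum_Zc (g : ℝ → ℝ) (K : ℕ) (z : ℝ) :
    ∑ r ∈ range (2 ^ K), g (Zc K r z) = 2 ^ K * avg g K z := by
  induction K generalizing z with
  | zero => simp [Zc_zero, avg_zero]
  | succ K ih =>
    have h1 : ∀ r ∈ range (2 ^ (K + 1)), g (Zc (K + 1) r z) =
        (if r % 2 = 0 then (fun s => g (Zc K s (E z))) (T r) else (fun s => g (Zc K s (O z))) (T r)) := by
      intro r _
      rw [Zc_succ]
      unfold st
      split_ifs <;> rfl
    have hp : Per K (fun s => g (Zc K s (O z))) := by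
      intro n m
      exact congrArg g (Zc_per' K (O z) n m)
    rw [sum_congr rfl h1]
    refine (sum_split (H1 := fun s => g (Zc K s (E z))) (H2 := fun s => g (Zc K s (O z))) hp).trans ?_
    rw [ih, ih, avg_succ]; ring

/-- the mean over the residues, with two initial values -/
theorem sum_Zc2 (g : ℝ → ℝ) (K : ℕ) (a b : ℝ) :
    ∑ r ∈ range (2 ^ (K + 1)), g (Zc (K + 1) r (if r % 2 = 0 then a else b))
      = 2 ^ (K + 1) * ((avg g K (E a) + avg g K (O b)) / 2) := by
  have h1 : ∀ r ∈ range (2 ^ (K + 1)), g (Zc (K + 1) r (if r % 2 = 0 then a else b)) =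
      (if r % 2 = 0 then (fun s => g (Zc K s (E a))) (T r) else (fun s => g (Zc K s (O b))) (T r)) := by
    intro r _
    rw [Zc_succ]
    unfold st
    split_ifs <;> rfl
  have hp : Per K (fun s => g (Zc K s (O b))) := by
    intro n m
    exact congrArg g (Zc_per' K (O b) n m)
  rw [sum_congr rfl h1]
  refine (sum_split (H1 := fun s => g (Zc K s (E a))) (H2 := fun s => g (Zc K s (O b))) hp).trans ?_
  rw [sum_Zc, sum_Zc, pow_succ]; ring

end Pool.Agent.W2helper41.CH
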